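import Mathlib

set_option autoImplicit false
set_option linter.unusedSectionVars false

/-!
# Boxes with disjoint caps cut off

The box is `∏ [-1/t i, 1/s i]`, its corners are `gam s t c`, `c` a vector of signs; `X` is a finite
set of linear forms, the caps are the sets where `pair x u ≥ 1`.
-/

open Finset

namespace Pool.Agent.H210R3.Seg

variable {ι : Type*} [Fintype ι] [DecidableEq ι]

def pair (x z : ι → ℝ) : ℝ := ∑ l, x l * z l

noncomputable def gam (s t : ι → ℝ) (c : ι → Bool) (i : ι) : ℝ :=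
  if c i = true then 1 / s i else -(1 / t i)

noncomputable def mx (x : ι → ℝ) (i : ι) : Bool := decide (0 ≤ x i)

def flip (c : ι → Bool) (i : ι) : ι → Bool := Function.update c i (!c i)

def SignOf (z : ι → ℝ) (c : ι → Bool) : Prop := ∀ l, (c l = true → 0 < z l) ∧ (c l = false → z l < 0)

def InBox (s t u : ι → ℝ) : Prop := ∀ i, -(1 / t i) ≤ u i ∧ u i ≤ 1 / s i

theorem gam_pos {s t : ι → ℝ} (hs : ∀ i, 0 < s i) {c : ι → Bool} {i : ι} (h : c i = true) :
    0 < gam s t c i := by
  rw [gam, if_pos h]; exact one_div_pos.mpr (hs i)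

theorem gam_neg {s t : ι → ℝ} (ht : ∀ i, 0 < t i) {c : ι → Bool} {i : ι} (h : c i = false) :
    gam s t c i < 0 := by
  rw [gam, if_neg (by simp [h])]
  have := one_div_pos.mpr (ht i)
  linarith

theorem gam_sign {s t : ι → ℝ} (hs : ∀ i, 0 < s i) (ht : ∀ i, 0 < t i) (c : ι → Bool) :
    SignOf (gam s t c) c := fun _ => ⟨fun h => gam_pos hs h, fun h => gam_neg ht h⟩

theorem gam_ne {s t : ι → ℝ} (hs : ∀ i, 0 < s i) (ht : ∀ i, 0 < t i) (c : ι → Bool) (i : ι) :
    gam s t c i ≠ 0 := by
  rcases h : c i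
  · exact (gam_neg ht h).ne
  · exact (gam_pos hs h).ne'

theorem gam_box {s t : ι → ℝ} (hs : ∀ i, 0 < s i) (ht : ∀ i, 0 < t i) (c : ι → Bool) :
    InBox s t (gam s t c) := by
  intro i
  have h1 := one_div_pos.mpr (hs i)
  have h2 := one_div_pos.mpr (ht i)
  rw [gam]
  split_ifs <;> constructor <;> linarith

theorem mx_nonneg {s t : ι → ℝ} (hs : ∀ i, 0 < s i) (ht : ∀ i, 0 < t i) (x : ι → ℝ) (i : ι)
    {c : ι → Bool} (h : c i = mx x i) : 0 ≤ x i * gam s t c i := by
  rcases le_or_gt 0 (x i) with hx | hx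
  · have : c i = true := by rw [h, mx]; simpa using hx
    exact mul_nonneg hx (gam_pos hs this).le
  · have : c i = false := by rw [h, mx]; simpa using hx
    exact (mul_pos_of_neg_of_neg hx (gam_neg ht this)).le

theorem mx_nonpos {s t : ι → ℝ} (hs : ∀ i, 0 < s i) (ht : ∀ i, 0 < t i) (x : ι → ℝ) (i : ι)
    {c : ι → Bool} (h : c i = !mx x i) : x i * gam s t c i ≤ 0 := by
  rcases le_or_gt 0 (x i) with hx | hx
  · have h0 : mx x i = true := by rw [mx]; simpa using hx
    have : c i = false := by rw [h, h0]; rfl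
    exact mul_nonpos_of_nonneg_of_nonpos hx (gam_neg ht this).le
  · have h0 : mx x i = false := by rw [mx]; simpa using hx
    have : c i = true := by rw [h, h0]; rfl
    exact (mul_neg_of_neg_of_pos hx (gam_pos hs this)).le

theorem flip_self (c : ι → Bool) (i : ι) : flip c i i = !c i := by simp [flip]

theorem flip_ne {c : ι → Bool} {i j : ι} (h : j ≠ i) : flip c i j = c j := by
  simp [flip, Function.update_of_ne h]

/-- `a` has no conflict: its cap can also be served from the neighbours of the corner `mx a`. -/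
def Free (s t : ι → ℝ) (X : Finset (ι → ℝ)) (a : ι → ℝ) : Prop :=
  ∀ i, pair a (gam s t (flip (mx a) i)) < 1 → ∃ z, SignOf z (flip (mx a) i) ∧ 0 < pair a z ∧
    ∀ y ∈ X, 1 ≤ pair y (gam s t (flip (mx a) i)) → 0 < pair y z

/-- The property of the functionals used for the separation. -/
def Serves (s t : ι → ℝ) (X : Finset (ι → ℝ)) (u z : ι → ℝ) : Prop :=
  (∀ i, (u i = 1 / s i → 0 < z i) ∧ (u i = -(1 / t i) → z i < 0)) ∧
    ∀ x ∈ X, pair x u = 1 → 0 < pair x z

theorem serve_of_free {s t : ι → ℝ} (hs : ∀ i, 0 < s i) (ht : ∀ i, 0 < t i)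
    {X : Finset (ι → ℝ)}
    (hdisj : ∀ x ∈ X, ∀ y ∈ X, x ≠ y → ∀ u, InBox s t u → ¬ (1 ≤ pair x u ∧ 1 ≤ pair y u))
    {a : ι → ℝ} (haX : a ∈ X) (ha1 : 1 < pair a (gam s t (mx a))) (hfree : Free s t X a) :
    ∃ Z : (ι → Bool) → (ι → ℝ), ∀ u, InBox s t u → (∀ x ∈ X, pair x u ≤ 1) →
      ∃ c, c ≠ mx a ∧ Serves s t X u (Z c) := by
  classical
  have hex : ∀ c : ι → Bool, ∃ z, SignOf z c ∧ (∀ y ∈ X, 1 ≤ pair y (gam s t c) → 0 < pair y z) ∧
      ((∃ i, c = flip (mx a) i) → pair a (gam s t c) < 1 → 0 < pair a z) := by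
    intro c
    by_cases h : (∃ i, c = flip (mx a) i) ∧ pair a (gam s t c) < 1
    · obtain ⟨⟨i, rfl⟩, h2⟩ := h
      obtain ⟨z, h3, h4, h5⟩ := hfree i h2
      exact ⟨z, h3, h5, fun _ _ => h4⟩
    · refine ⟨gam s t c, gam_sign hs ht c, fun y _ h1 => by linarith, fun h1 h2 => ?_⟩
      exact absurd ⟨h1, h2⟩ h
  choose Z hZ1 hZ2 hZ3 using hex
  refine ⟨Z, fun u hu hle => ?_⟩
  -- the corner of the face of `u` in the direction of `y`
  let cor : (ι → ℝ) → (ι → Bool) := fun y i =>
    if u i = 1 / s i then true else if u i = -(1 / t i) then false else decide (0 ≤ y i)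
  have hne : ∀ i, (1 / s i) ≠ -(1 / t i) := by
    intro i h
    have h1 := one_div_pos.mpr (hs i)
    have h2 := one_div_pos.mpr (ht i)
    linarith
  have hag : ∀ c : ι → Bool, (∀ i, (u i = 1 / s i → c i = true) ∧ (u i = -(1 / t i) → c i = false)) →
      ∀ i, (u i = 1 / s i → 0 < Z c i) ∧ (u i = -(1 / t i) → Z c i < 0) := by
    intro c hc i
    exact ⟨fun h => (hZ1 c i).1 ((hc i).1 h), fun h => (hZ1 c i).2 ((hc i).2 h)⟩
  have hcor : ∀ y i, (u i = 1 / s i → cor y i = true) ∧ (u i = -(1 / t i) → cor y i = false) := by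
    intro y i
    constructor
    · intro h; simp only [cor, h, if_true]
    · intro h
      have h1 : u i ≠ 1 / s i := by rw [h]; exact (hne i).symm
      simp only [cor, if_neg h1, if_pos h]
  have hval : ∀ y i, y i * u i ≤ y i * gam s t (cor y) i := by
    intro y i
    by_cases h1 : u i = 1 / s i
    · rw [gam, if_pos ((hcor y i).1 h1), h1]
    · by_cases h2 : u i = -(1 / t i)
      · rw [gam, if_neg (by rw [(hcor y i).2 h2]; simp), h2]
      · have h3 : cor y i = decide (0 ≤ y i) := by simp only [cor, if_neg h1, if_neg h2]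
        rcases le_or_gt 0 (y i) with h | h
        · rw [gam, if_pos (by rw [h3]; simpa using h)]
          exact mul_le_mul_of_nonneg_left (hu i).2 h
        · rw [gam, if_neg (by rw [h3]; simpa using h)]
          exact mul_le_mul_of_nonpos_left (hu i).1 h.le
  -- flipping a free coordinate
  have hflip : ∀ y i, u i ≠ 1 / s i → u i ≠ -(1 / t i) →
      ∀ l, (u l = 1 / s l → flip (cor y) i l = true) ∧ (u l = -(1 / t l) → flip (cor y) i l = false) := by
    intro y i h1 h2 l
    by_cases hl : l = i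
    · subst hl
      exact ⟨fun h => absurd h h1, fun h => absurd h h2⟩
    · rw [flip_ne hl]; exact hcor y l
  have hflipne : ∀ (c : ι → Bool) i, flip c i ≠ c := by
    intro c i h
    have := congrFun h i
    rw [flip_self] at this
    simp at this
  by_cases htight : ∃ y ∈ X, pair y u = 1
  · obtain ⟨y, hyX, hyu⟩ := htight
    have huniq : ∀ x ∈ X, pair x u = 1 → x = y := by
      intro x hx hxu
      by_contra hxy
      exact hdisj x hx y hyX hxy u hu ⟨hxu.ge, hyu.ge⟩
    have hv : 1 ≤ pair y (gam s t (cor y)) := by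
      rw [← hyu]
      exact Finset.sum_le_sum fun i _ => hval y i
    by_cases hc : cor y = mx a
    · -- then `y = a`
      have hya : y = a := by
        by_contra hya
        exact hdisj y hyX a haX hya _ (gam_box hs ht (mx a)) ⟨by rw [← hc]; exact hv, ha1.le⟩
      subst hya
      obtain ⟨i, hi⟩ : ∃ i, y i * u i < y i * gam s t (cor y) i := by
        by_contra hno
        push Not at hno
        have : pair y (gam s t (cor y)) ≤ pair y u := Finset.sum_le_sum fun i _ => hno i
        rw [hyu, hc] at this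
        linarith
      have h1 : u i ≠ 1 / s i := by
        intro h
        rw [gam, if_pos ((hcor y i).1 h), h] at hi
        exact lt_irrefl _ hi
      have h2 : u i ≠ -(1 / t i) := by
        intro h
        rw [gam, if_neg (by rw [(hcor y i).2 h]; simp), h] at hi
        exact lt_irrefl _ hi
      refine ⟨flip (cor y) i, by rw [← hc]; exact hflipne _ _, hag _ (hflip y i h1 h2), ?_⟩
      intro x hx hxu
      rw [huniq x hx hxu]
      rcases lt_or_ge (pair y (gam s t (flip (cor y) i))) 1 with h | h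
      · exact hZ3 _ ⟨i, by rw [hc]⟩ h
      · exact hZ2 _ y hyX h
    · refine ⟨cor y, hc, hag _ (hcor y), fun x hx hxu => ?_⟩
      rw [huniq x hx hxu]
      exact hZ2 _ y hyX hv
  · push Not at htight
    by_cases hc : cor a = mx a
    · obtain ⟨i, hi⟩ : ∃ i, a i * u i < a i * gam s t (cor a) i := by
        by_contra hno
        push Not at hno
        have : pair a (gam s t (cor a)) ≤ pair a u := Finset.sum_le_sum fun i _ => hno i
        have h2 := hle a haX
        rw [hc] at this
        linarith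
      have h1 : u i ≠ 1 / s i := by
        intro h
        rw [gam, if_pos ((hcor a i).1 h), h] at hi
        exact lt_irrefl _ hi
      have h2 : u i ≠ -(1 / t i) := by
        intro h
        rw [gam, if_neg (by rw [(hcor a i).2 h]; simp), h] at hi
        exact lt_irrefl _ hi
      exact ⟨flip (cor a) i, by rw [← hc]; exact hflipne _ _, hag _ (hflip a i h1 h2),
        fun x hx hxu => absurd hxu (htight x hx)⟩
    · exact ⟨cor a, hc, hag _ (hcor a), fun x hx hxu => absurd hxu (htight x hx)⟩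

theorem pair_mod {x g m : ι → ℝ} : pair x (fun l => g l * m l) = ∑ l, (x l * g l) * m l := by
  unfold pair
  exact Finset.sum_congr rfl fun l _ => by ring

theorem sum_one_two (X : ι → ℝ) (A B δ : ℝ) (i j : ι) :
    ∑ l, X l * (δ + (if l = i then A else 0) + (if l = j then B else 0)) =
      δ * ∑ l, X l + A * X i + B * X j := by
  have h : ∀ l, X l * (δ + (if l = i then A else 0) + (if l = j then B else 0)) =
      δ * X l + (if l = i then A * X l else 0) + (if l = j then B * X l else 0) := by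
    intro l
    split_ifs <;> ring
  simp only [h, Finset.sum_add_distrib, ← Finset.mul_sum, Finset.sum_ite_eq', mem_univ, if_true]

theorem conflict {s t : ι → ℝ} (hs : ∀ i, 0 < s i) (ht : ∀ i, 0 < t i)
    {X : Finset (ι → ℝ)}
    (hdisj : ∀ x ∈ X, ∀ y ∈ X, x ≠ y → ∀ u, InBox s t u → ¬ (1 ≤ pair x u ∧ 1 ≤ pair y u))
    {a : ι → ℝ} (hsupp : ∀ i, ∃ j, j ≠ i ∧ a j ≠ 0)
    (hnf : ¬ Free s t X a) :
    ∃ i, ∃ k ∈ X, pair a (gam s t (flip (mx a) i)) < 1 ∧ 1 ≤ pair k (gam s t (flip (mx a) i)) ∧
      (∀ j, j ≠ i → k j * gam s t (flip (mx a) i) j ≤ 0) ∧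
      (∀ j, j ≠ i → (a j * gam s t (flip (mx a) i) j) * (k i * gam s t (flip (mx a) i) i) ≤
        (k j * gam s t (flip (mx a) i) j) * (a i * gam s t (flip (mx a) i) i)) := by
  classical
  unfold Free at hnf
  push Not at hnf
  obtain ⟨i, hi, hno⟩ := hnf
  set c := flip (mx a) i with hc
  set g := gam s t c with hg
  have hsg : SignOf g c := gam_sign hs ht c
  have hmod : ∀ m : ι → ℝ, (∀ l, 0 < m l) → SignOf (fun l => g l * m l) c := by
    intro m hm l
    exact ⟨fun h => mul_pos ((hsg l).1 h) (hm l), fun h => mul_neg_of_neg_of_pos ((hsg l).2 h) (hm l)⟩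
  have haj : ∀ j, j ≠ i → 0 ≤ a j * g j := fun j hj => mx_nonneg hs ht a j (by rw [hc, flip_ne hj])
  have hai : a i * g i ≤ 0 := mx_nonpos hs ht a i (by rw [hc, flip_self])
  obtain ⟨j0, hj0, hj0'⟩ := hsupp i
  have hj0pos : 0 < a j0 * g j0 :=
    lt_of_le_of_ne (haj j0 hj0) (Ne.symm (mul_ne_zero hj0' (gam_ne hs ht c j0)))
  set A : ℝ := (|pair a g| + 1) / (a j0 * g j0) with hA
  have hA0 : 0 < A := by positivity
  have hAv : A * (a j0 * g j0) = |pair a g| + 1 := div_mul_cancel₀ _ hj0pos.ne'
  have hpa : ∀ B : ℝ, ∀ j, pair a (fun l => g l * (1 + (if l = j0 then A else 0) +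
      (if l = j then B else 0))) = pair a g + A * (a j0 * g j0) + B * (a j * g j) := by
    intro B j
    rw [pair_mod, sum_one_two (fun l => a l * g l)]
    simp [pair]
  have hpk : ∀ (k : ι → ℝ) (B : ℝ), ∀ j, pair k (fun l => g l * (1 + (if l = j0 then A else 0) +
      (if l = j then B else 0))) = pair k g + A * (k j0 * g j0) + B * (k j * g j) := by
    intro k B j
    rw [pair_mod, sum_one_two (fun l => k l * g l)]
    simp [pair]
  have hmpos : ∀ B : ℝ, 0 ≤ B → ∀ j l : ι,
      0 < 1 + (if l = j0 then A else 0) + (if l = j then B else 0) := by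
    intro B hB j l
    split_ifs <;> linarith
  have hval := neg_abs_le (pair a g)
  obtain ⟨k, hkX, hk1, -⟩ := hno _ (hmod _ (hmpos 0 le_rfl i)) (by
    rw [hpa 0 i, hAv]; linarith)
  have huniq : ∀ y ∈ X, 1 ≤ pair y g → y = k := by
    intro y hy hy1
    by_contra hyk
    exact hdisj y hy k hkX hyk g (gam_box hs ht c) ⟨hy1, hk1⟩
  have H : ∀ z, SignOf z c → 0 < pair a z → pair k z ≤ 0 := by
    intro z hz hpz
    obtain ⟨y, hy, hy1, hy2⟩ := hno z hz hpz
    rwa [huniq y hy hy1] at hy2
  have hka : ∀ j, j ≠ i → k j * g j ≤ 0 := by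
    intro j hj
    by_contra hpos
    push Not at hpos
    set B : ℝ := (|A * (k j0 * g j0)| + 1) / (k j * g j) with hB
    have hB0 : 0 < B := by positivity
    have hBv : B * (k j * g j) = |A * (k j0 * g j0)| + 1 := div_mul_cancel₀ _ hpos.ne'
    have h1 := H _ (hmod _ (hmpos B hB0.le j)) (by
      rw [hpa B j, hAv]
      have := mul_nonneg hB0.le (haj j hj)
      linarith)
    rw [hpk k B j, hBv] at h1
    have := neg_abs_le (A * (k j0 * g j0))
    linarith
  have hki : 1 ≤ k i * g i := by
    have h1 : pair k g = k i * g i + ∑ l ∈ univ.erase i, k l * g l := by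
      unfold pair
      exact (Finset.add_sum_erase _ _ (mem_univ i)).symm
    have h2 : ∑ l ∈ univ.erase i, k l * g l ≤ 0 :=
      Finset.sum_nonpos fun l hl => hka l (ne_of_mem_erase hl)
    linarith
  refine ⟨i, k, hkX, hi, hk1, hka, fun j hj => ?_⟩
  by_contra hlt
  push Not at hlt
  set D := (a j * g j) * (k i * g i) - (k j * g j) * (a i * g i) with hD
  have hD0 : 0 < D := by rw [hD]; linarith
  set A' := k i * g i - a i * g i with hA'
  set B' := a j * g j - k j * g j with hB'
  have hA'0 : 0 < A' := by rw [hA']; linarith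
  have hB'0 : 0 < B' := by
    have h1 := haj j hj
    have h2 := hka j hj
    rcases (show 0 ≤ B' by rw [hB']; linarith).eq_or_lt with h | h
    · exfalso
      have h3 : a j * g j = 0 := by rw [hB'] at h; linarith
      have h4 : k j * g j = 0 := by rw [hB'] at h; linarith
      rw [hD, h3, h4] at hD0
      simp at hD0
    · exact h
  set Ra := pair a g - a j * g j - a i * g i with hRa
  set Rk := pair k g - k j * g j - k i * g i with hRk
  set δ := min (min A' B') (D / (2 * (|Ra| + |Rk| + 1))) with hδ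
  have hδ0 : 0 < δ := lt_min (lt_min hA'0 hB'0) (by positivity)
  have hδA : δ ≤ A' := (min_le_left _ _).trans (min_le_left _ _)
  have hδB : δ ≤ B' := (min_le_left _ _).trans (min_le_right _ _)
  have hδD : δ * (|Ra| + |Rk| + 1) ≤ D / 2 := by
    have h1 : δ ≤ D / (2 * (|Ra| + |Rk| + 1)) := min_le_right _ _
    have h2 : 0 < |Ra| + |Rk| + 1 := by positivity
    calc δ * (|Ra| + |Rk| + 1) ≤ D / (2 * (|Ra| + |Rk| + 1)) * (|Ra| + |Rk| + 1) :=
          mul_le_mul_of_nonneg_right h1 h2.le
      _ = D / 2 := by field_simp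
  have hform : ∀ x : ι → ℝ, pair x (fun l => g l * (δ + (if l = j then A' - δ else 0) +
      (if l = i then B' - δ else 0))) =
      δ * pair x g + (A' - δ) * (x j * g j) + (B' - δ) * (x i * g i) := by
    intro x
    rw [pair_mod, sum_one_two (fun l => x l * g l)]
    rfl
  have hm : ∀ l : ι, 0 < δ + (if l = j then A' - δ else 0) + (if l = i then B' - δ else 0) := by
    intro l
    split_ifs <;> linarith
  have hbound : ∀ R : ℝ, |R| ≤ |Ra| + |Rk| → 0 < D + δ * R := by
    intro R hR
    have h1 := neg_abs_le R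
    have h2 : δ * (-(|Ra| + |Rk|)) ≤ δ * R :=
      mul_le_mul_of_nonneg_left (by linarith) hδ0.le
    have h3 : δ * (-(|Ra| + |Rk|)) = δ - δ * (|Ra| + |Rk| + 1) := by ring
    linarith
  have h1 := H _ (hmod _ hm) (by
    rw [hform a]
    have e : δ * pair a g + (A' - δ) * (a j * g j) + (B' - δ) * (a i * g i) = D + δ * Ra := by
      rw [hRa, hD, hA', hB']; ring
    rw [e]
    exact hbound Ra (by have := abs_nonneg Rk; linarith))
  rw [hform k] at h1
  have e : δ * pair k g + (A' - δ) * (k j * g j) + (B' - δ) * (k i * g i) = D + δ * Rk := by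
    rw [hRk, hD, hA', hB']; ring
  rw [e] at h1
  have := hbound Rk (by have := abs_nonneg Ra; linarith)
  linarith

end Pool.Agent.H210R3.Seg
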