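import Pool.Agent.H210R3.Seg.CapsMain

set_option autoImplicit false

open Finset Filter Topology
open scoped InnerProductSpace

namespace Pool.Agent.H210R3.Seg

theorem box_lt_one {d : ℕ} {o : EuclideanSpace ℝ (Fin d)}
    {v : Fin d → EuclideanSpace ℝ (Fin d)} {s t : Fin d → ℝ} (hs : ∀ i, 0 < s i)
    (ht : ∀ i, 0 < t i) {z : EuclideanSpace ℝ (Fin d)} (hz : z ∈ interior (hull o v s t))
    {u : EuclideanSpace ℝ (Fin d)} (hu : InBox s t (fun i => ⟪u, v i⟫_ℝ)) : ⟪u, z - o⟫_ℝ < 1 := by
  by_cases hu0 : u = 0
  · rw [hu0, inner_zero_left]; exact one_pos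
  have hsub : hull o v s t ⊆ {x | ⟪u, x⟫_ℝ ≤ 1 + ⟪u, o⟫_ℝ} := by
    refine convexHull_min ?_ ?_
    · intro p hp
      obtain ⟨j, hj⟩ := Set.mem_iUnion.mp hp
      have h1 := hu j
      simp only at h1
      rcases hj with rfl | hj
      · show ⟪u, o + s j • v j⟫_ℝ ≤ 1 + ⟪u, o⟫_ℝ
        rw [inner_add_right, real_inner_smul_right]
        have h2 := (le_div_iff₀ (hs j)).mp h1.2
        linarith
      · rw [Set.mem_singleton_iff] at hj
        subst hj
        show ⟪u, o - t j • v j⟫_ℝ ≤ 1 + ⟪u, o⟫_ℝ
        rw [inner_sub_right, real_inner_smul_right]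
        have h2 : -⟪u, v j⟫_ℝ ≤ 1 / t j := by linarith [h1.1]
        have h3 := (le_div_iff₀ (ht j)).mp h2
        linarith
    · intro x hx y hy a b ha hb hab
      have hx' : ⟪u, x⟫_ℝ ≤ 1 + ⟪u, o⟫_ℝ := hx
      have hy' : ⟪u, y⟫_ℝ ≤ 1 + ⟪u, o⟫_ℝ := hy
      show ⟪u, a • x + b • y⟫_ℝ ≤ 1 + ⟪u, o⟫_ℝ
      rw [inner_add_right, real_inner_smul_right, real_inner_smul_right]
      have h1 := mul_le_mul_of_nonneg_left hx' ha
      have h2 := mul_le_mul_of_nonneg_left hy' hb
      have h3 : a * (1 + ⟪u, o⟫_ℝ) + b * (1 + ⟪u, o⟫_ℝ) = 1 + ⟪u, o⟫_ℝ := by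
        rw [← add_mul, hab, one_mul]
      linarith
  by_contra hge
  push Not at hge
  rw [inner_sub_right] at hge
  have h := height_pos (x₀ := z) hz hu0 (fun y hy => by
    have h1 : ⟪u, y⟫_ℝ ≤ 1 + ⟪u, o⟫_ℝ := hsub hy
    linarith)
  simp at h

/-- The caps are disjoint. -/
theorem caps_disjoint {d : ℕ} {o : EuclideanSpace ℝ (Fin d)}
    {v : Fin d → EuclideanSpace ℝ (Fin d)} (hspan : Submodule.span ℝ (Set.range v) = ⊤)
    {s t : Fin d → ℝ} (hs : ∀ i, 0 < s i) (ht : ∀ i, 0 < t i) {X : Finset (Fin d → ℝ)}
    (hint : ∀ x ∈ X, ∀ y ∈ X, x ≠ y →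
      ∃ z ∈ segment ℝ (o + ∑ i, x i • v i) (o + ∑ i, y i • v i), z ∈ interior (hull o v s t)) :
    ∀ x ∈ X, ∀ y ∈ X, x ≠ y → ∀ u, InBox s t u → ¬ (1 ≤ pair x u ∧ 1 ≤ pair y u) := by
  rintro x hx y hy hxy u' hu' ⟨h1, h2⟩
  obtain ⟨z, ⟨a, b, ha, hb, hab, rfl⟩, hz⟩ := hint x hx y hy hxy
  obtain ⟨u, hu⟩ := realize v hspan u'
  have hu2 : (fun i => ⟪u, v i⟫_ℝ) = u' := funext hu
  have h3 := box_lt_one hs ht hz (u := u) (by rw [hu2]; exact hu')
  have e : a • (o + ∑ i, x i • v i) + b • (o + ∑ i, y i • v i) - o =
      a • (∑ i, x i • v i) + b • (∑ i, y i • v i) := by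
    have e1 : b = 1 - a := by linarith
    subst e1
    simp only [smul_add, sub_smul, one_smul]
    abel
  rw [e, inner_add_right, real_inner_smul_right, real_inner_smul_right, inner_coord, inner_coord,
    hu2] at h3
  nlinarith

theorem update_indep {d : ℕ} {v : Fin d → EuclideanSpace ℝ (Fin d)}
    (hspan : Submodule.span ℝ (Set.range v) = ⊤) {a : Fin d → ℝ} {i : Fin d} (hai : a i ≠ 0) :
    LinearIndependent ℝ (Function.update v i (∑ j, a j • v j)) := by
  apply linearIndependent_of_top_le_span_of_card_eq_finrank _ (by simp)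
  rw [← hspan, Submodule.span_le]
  set w := Function.update v i (∑ j, a j • v j) with hw
  have hj : ∀ j, j ≠ i → v j ∈ Submodule.span ℝ (Set.range w) := by
    intro j hj
    have : v j = w j := by rw [hw, Function.update_of_ne hj]
    rw [this]
    exact Submodule.subset_span ⟨j, rfl⟩
  rintro _ ⟨j, rfl⟩
  by_cases hji : j = i
  · subst hji
    have h1 : ∑ l, a l • v l ∈ Submodule.span ℝ (Set.range w) := by
      have : ∑ l, a l • v l = w j := by rw [hw, Function.update_self]
      rw [this]
      exact Submodule.subset_span ⟨j, rfl⟩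
    have h2 : v j = (a j)⁻¹ • (∑ l, a l • v l - ∑ l ∈ univ.erase j, a l • v l) := by
      rw [← Finset.add_sum_erase _ _ (mem_univ j), add_sub_cancel_right, smul_smul,
        inv_mul_cancel₀ hai, one_smul]
    rw [SetLike.mem_coe, h2]
    refine Submodule.smul_mem _ _ (Submodule.sub_mem _ h1 (Submodule.sum_mem _ fun l hl => ?_))
    exact Submodule.smul_mem _ _ (hj l (ne_of_mem_erase hl))
  · exact hj j hji

theorem nondeg {d : ℕ} (hd : 1 ≤ d) {o : EuclideanSpace ℝ (Fin d)}
    {v : Fin d → EuclideanSpace ℝ (Fin d)} (hspan : Submodule.span ℝ (Set.range v) = ⊤)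
    {s t : Fin d → ℝ} (hs : ∀ i, 0 < s i) (ht : ∀ i, 0 < t i) {X : Finset (Fin d → ℝ)}
    (hdisj : ∀ x ∈ X, ∀ y ∈ X, x ≠ y → ∀ u, InBox s t u → ¬ (1 ≤ pair x u ∧ 1 ≤ pair y u))
    (hsupp : ∀ x ∈ X, ∀ i, ∃ j, j ≠ i ∧ x j ≠ 0)
    (hbig : ∀ x ∈ X, 1 < pair x (gam s t (mx x)))
    (hne : X.Nonempty) (ho : o ∈ interior (convexHull ℝ (pts o v s t X))) :
    SepBy (convexHull ℝ (pts o v s t X)) o (2 ^ d - 1) ∨
      IsCross (convexHull ℝ (pts o v s t X)) o := by
  classical
  by_cases hfree : ∃ a ∈ X, Free s t X a
  · left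
    obtain ⟨a, haX, hfree⟩ := hfree
    obtain ⟨Z, hZ⟩ := serve_of_free hs ht hdisj haX (hbig a haX) hfree
    choose w hw using fun c => realize v hspan (Z c)
    have hw2 : ∀ c, (fun i => ⟪w c, v i⟫_ℝ) = Z c := fun c => funext (hw c)
    refine sepPts (pts o v s t X) (pts_finite o v s t X) ho (2 ^ d - 1) (univ.erase (mx a)) ?_ w ?_
    · rw [Finset.card_erase_of_mem (mem_univ _), Finset.card_univ]
      simp
    · intro u hu
      have hleft : ∀ i, s i * ⟪u, v i⟫_ℝ ≤ 1 := by
        intro i
        have := hu (o + s i • v i) (Or.inl (Set.mem_iUnion.mpr ⟨i, by simp⟩))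
        rwa [add_sub_cancel_left, real_inner_smul_right] at this
      have hright : ∀ i, -(t i * ⟪u, v i⟫_ℝ) ≤ 1 := by
        intro i
        have := hu (o - t i • v i) (Or.inl (Set.mem_iUnion.mpr ⟨i, by simp⟩))
        rwa [sub_sub_cancel_left, inner_neg_right, real_inner_smul_right] at this
      have hbox : InBox s t (fun i => ⟪u, v i⟫_ℝ) := by
        intro i
        have h1 := hleft i
        have h2 := hright i
        constructor
        · have : -⟪u, v i⟫_ℝ ≤ 1 / t i := by
            rw [le_div_iff₀ (ht i)]; linarith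
          simp only
          linarith
        · rw [le_div_iff₀ (hs i)]; linarith
      have hX : ∀ x ∈ X, pair x (fun i => ⟪u, v i⟫_ℝ) ≤ 1 := by
        intro x hx
        have := hu (o + ∑ i, x i • v i) (Or.inr ⟨x, hx, rfl⟩)
        rwa [add_sub_cancel_left, inner_coord] at this
      obtain ⟨c, hc, hserve, hserve2⟩ := hZ _ hbox hX
      refine ⟨c, Finset.mem_erase.mpr ⟨hc, mem_univ _⟩, ?_⟩
      rintro q (hq | ⟨x, hx, rfl⟩) hq1
      · obtain ⟨i, hi⟩ := Set.mem_iUnion.mp hq
        rcases hi with rfl | hi
        · rw [add_sub_cancel_left, real_inner_smul_right] at hq1 ⊢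
          have h1 := (hserve i).1 (by
            rw [eq_div_iff (hs i).ne']; linarith)
          rw [hw]
          exact mul_pos (hs i) h1
        · rw [Set.mem_singleton_iff] at hi
          subst hi
          rw [sub_sub_cancel_left, inner_neg_right, real_inner_smul_right] at hq1 ⊢
          have h1 := (hserve i).2 (by
            rw [← neg_div, eq_div_iff (ht i).ne']; linarith)
          rw [hw]
          have := mul_neg_of_pos_of_neg (ht i) h1
          linarith
      · simp only at hq1 ⊢
        rw [add_sub_cancel_left, inner_coord] at hq1 ⊢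
        rw [hw2]
        exact hserve2 x hx hq1
  · right
    push Not at hfree
    obtain ⟨a, haX, k, hkX, i, κ, hκ, hk, hai, hX, hfa, hfk⟩ :=
      both_conflict hs ht hdisj hsupp hbig hne hfree
    have : Nonempty (Fin d) := ⟨⟨0, hd⟩⟩
    set V := Function.update v i (∑ j, a j • v j) with hV
    set S := Function.update s i 1 with hS
    set T := Function.update t i κ with hT
    have hSpos : ∀ j, 0 < S j := by
      intro j
      by_cases h : j = i
      · rw [hS, h, Function.update_self]; exact one_pos
      · rw [hS, Function.update_of_ne h]; exact hs j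
    have hTpos : ∀ j, 0 < T j := by
      intro j
      by_cases h : j = i
      · rw [hT, h, Function.update_self]; exact hκ
      · rw [hT, Function.update_of_ne h]; exact ht j
    have hHc : Convex ℝ (hull o V S T) := hull_convex _ _ _ _
    have hoH : o ∈ hull o V S T := o_mem hSpos hTpos
    have hl : ∀ j, j ≠ i → o + s j • v j ∈ hull o V S T := by
      intro j hj
      have := left_mem o V S T j
      rwa [hV, hS, Function.update_of_ne hj, Function.update_of_ne hj, ← hV, ← hS] at this
    have hr : ∀ j, j ≠ i → o - t j • v j ∈ hull o V S T := by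
      intro j hj
      have := right_mem o V S T j
      rwa [hV, hT, Function.update_of_ne hj, Function.update_of_ne hj, ← hV, ← hT] at this
    have hA : o + ∑ j, a j • v j ∈ hull o V S T := by
      have := left_mem o V S T i
      rwa [hV, hS, Function.update_self, Function.update_self, one_smul, ← hV, ← hS] at this
    have hkA : ∑ j, k j • v j = -(κ • ∑ j, a j • v j) := by
      rw [Finset.smul_sum, ← Finset.sum_neg_distrib]
      refine Finset.sum_congr rfl fun j _ => ?_
      rw [hk j, smul_smul, ← neg_smul, neg_mul]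
    have hK : o + ∑ j, k j • v j ∈ hull o V S T := by
      have := right_mem o V S T i
      rw [hV, hT, Function.update_self, Function.update_self, ← hV, ← hT] at this
      rw [hkA, ← sub_eq_add_neg]
      exact this
    have hends : ∀ b : Bool, o + (if b = true then s i else -(t i)) • v i ∈ hull o V S T := by
      intro b
      by_cases hb : b = mx a i
      · exact redundant_end hs ht hHc hoH hl hr hA b (fun c hc => hfa c (hc.trans hb))
      · refine redundant_end hs ht hHc hoH hl hr hK b (fun c hc => hfk c (hc.trans ?_))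
        cases b <;> cases h : mx a i <;> simp_all
    have heq : convexHull ℝ (pts o v s t X) = hull o V S T := by
      apply Set.Subset.antisymm
      · refine convexHull_min ?_ hHc
        rintro p (hp | ⟨x, hx, rfl⟩)
        · obtain ⟨j, hj⟩ := Set.mem_iUnion.mp hp
          by_cases hji : j = i
          · subst hji
            rcases hj with rfl | hj
            · simpa using hends true
            · rw [Set.mem_singleton_iff] at hj
              subst hj
              have := hends false
              simp only [Bool.false_eq_true, if_false, neg_smul] at this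
              rw [sub_eq_add_neg]
              exact this
          · rcases hj with rfl | hj
            · exact hl j hji
            · rw [Set.mem_singleton_iff] at hj
              subst hj
              exact hr j hji
        · rcases hX x hx with rfl | rfl
          · exact hA
          · exact hK
      · refine convexHull_min ?_ (convex_convexHull ℝ _)
        intro p hp
        obtain ⟨j, hj⟩ := Set.mem_iUnion.mp hp
        apply subset_convexHull ℝ _
        by_cases hji : j = i
        · subst hji
          rw [hV, hS, hT, Function.update_self, Function.update_self, Function.update_self,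
            one_smul] at hj
          rcases hj with rfl | hj
          · exact Or.inr ⟨a, haX, rfl⟩
          · rw [Set.mem_singleton_iff] at hj
            refine Or.inr ⟨k, hkX, ?_⟩
            simp only
            rw [hj, hkA, sub_eq_add_neg]
        · rw [hV, hS, hT, Function.update_of_ne hji, Function.update_of_ne hji,
            Function.update_of_ne hji] at hj
          exact Or.inl (Set.mem_iUnion.mpr ⟨j, hj⟩)
    rw [heq]
    exact isCross_of (update_indep hspan hai) hSpos hTpos

end Pool.Agent.H210R3.Seg
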