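import Pool.Agent.H210R3.Seg.CapsFinal

set_option autoImplicit false

open Finset Filter Topology
open scoped InnerProductSpace

namespace Pool.Agent.H210R3.Seg

/-- A point of `X` in the cross-body can be omitted. -/
theorem pts_erase {d : ℕ} {o : EuclideanSpace ℝ (Fin d)}
    {v : Fin d → EuclideanSpace ℝ (Fin d)} {s t : Fin d → ℝ} {X : Finset (Fin d → ℝ)}
    {x : Fin d → ℝ} (hP : o + ∑ i, x i • v i ∈ hull o v s t) :
    convexHull ℝ (pts o v s t X) = convexHull ℝ (pts o v s t (X.erase x)) := by
  classical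
  apply Set.Subset.antisymm
  · refine convexHull_min ?_ (convex_convexHull ℝ _)
    rintro p (hp | ⟨y, hy, rfl⟩)
    · exact subset_convexHull ℝ _ (Or.inl hp)
    · by_cases hyx : y = x
      · subst hyx
        exact hull_sub o v s t _ hP
      · exact subset_convexHull ℝ _ (Or.inr ⟨y, Finset.mem_coe.mpr
          (Finset.mem_erase.mpr ⟨hyx, hy⟩), rfl⟩)
  · apply convexHull_mono
    rintro p (hp | ⟨y, hy, rfl⟩)
    · exact Or.inl hp
    · exact Or.inr ⟨y, Finset.mem_coe.mpr (Finset.mem_of_mem_erase hy), rfl⟩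

/-- A point of `X` on the line of one of the segments can be used to enlarge this segment. -/
theorem pts_enlarge {d : ℕ} (hd : 1 ≤ d) {o : EuclideanSpace ℝ (Fin d)}
    {v : Fin d → EuclideanSpace ℝ (Fin d)} {s t : Fin d → ℝ} (hs : ∀ i, 0 < s i)
    (ht : ∀ i, 0 < t i) {X : Finset (Fin d → ℝ)} {x : Fin d → ℝ} (hx : x ∈ X) {i : Fin d}
    (hxi : ∀ j, j ≠ i → x j = 0) :
    convexHull ℝ (pts o v s t X) = convexHull ℝ
      (pts o v (Function.update s i (max (s i) (x i))) (Function.update t i (max (t i) (-x i)))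
        (X.erase x)) ∧
    hull o v s t ⊆ hull o v (Function.update s i (max (s i) (x i)))
      (Function.update t i (max (t i) (-x i))) := by
  classical
  have : Nonempty (Fin d) := ⟨⟨0, hd⟩⟩
  set S := Function.update s i (max (s i) (x i)) with hS
  set T := Function.update t i (max (t i) (-x i)) with hT
  have hSi : S i = max (s i) (x i) := by rw [hS, Function.update_self]
  have hTi : T i = max (t i) (-x i) := by rw [hT, Function.update_self]
  have hSj : ∀ j, j ≠ i → S j = s j := fun j hj => by rw [hS, Function.update_of_ne hj]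
  have hTj : ∀ j, j ≠ i → T j = t j := fun j hj => by rw [hT, Function.update_of_ne hj]
  have hSpos : ∀ j, 0 < S j := by
    intro j
    by_cases h : j = i
    · rw [h, hSi]; exact lt_max_of_lt_left (hs i)
    · rw [hSj j h]; exact hs j
  have hTpos : ∀ j, 0 < T j := by
    intro j
    by_cases h : j = i
    · rw [h, hTi]; exact lt_max_of_lt_left (ht i)
    · rw [hTj j h]; exact ht j
  have hsum : ∑ j, x j • v j = x i • v i := by
    rw [← Finset.add_sum_erase _ _ (mem_univ i)]
    rw [Finset.sum_eq_zero (fun j hj => by rw [hxi j (ne_of_mem_erase hj), zero_smul]), add_zero]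
  have hHc : Convex ℝ (hull o v S T) := hull_convex _ _ _ _
  have hoH : o ∈ hull o v S T := o_mem hSpos hTpos
  have hL : o + S i • v i ∈ hull o v S T := left_mem o v S T i
  have hR : o + T i • (-v i) ∈ hull o v S T := by
    have := right_mem o v S T i
    rwa [smul_neg, ← sub_eq_add_neg]
  have hsub : hull o v s t ⊆ hull o v S T := by
    refine convexHull_min ?_ hHc
    intro p hp
    obtain ⟨j, hj⟩ := Set.mem_iUnion.mp hp
    by_cases hji : j = i
    · subst hji
      rcases hj with rfl | hj
      · exact between hHc hoH (hSpos j) (hs j).le (by rw [hSi]; exact le_max_left _ _) hL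
      · rw [Set.mem_singleton_iff] at hj
        subst hj
        have := between hHc hoH (hTpos j) (ht j).le (by rw [hTi]; exact le_max_left _ _) hR
        rwa [smul_neg, ← sub_eq_add_neg] at this
    · rcases hj with rfl | hj
      · have := left_mem o v S T j
        rwa [hSj j hji] at this
      · rw [Set.mem_singleton_iff] at hj
        subst hj
        have := right_mem o v S T j
        rwa [hTj j hji] at this
  refine ⟨?_, hsub⟩
  apply Set.Subset.antisymm
  · refine convexHull_min ?_ (convex_convexHull ℝ _)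
    rintro p (hp | ⟨y, hy, rfl⟩)
    · exact hull_sub o v S T _ (hsub (subset_convexHull ℝ _ hp))
    · by_cases hyx : y = x
      · subst hyx
        simp only
        rw [hsum]
        apply hull_sub o v S T
        rcases le_total 0 (y i) with h | h
        · exact between hHc hoH (hSpos i) h (by rw [hSi]; exact le_max_right _ _) hL
        · have := between hHc hoH (hTpos i) (neg_nonneg.mpr h)
            (by rw [hTi]; exact le_max_right _ _) hR
          rwa [smul_neg, neg_smul, neg_neg] at this
      · exact subset_convexHull ℝ _ (Or.inr ⟨y, Finset.mem_coe.mpr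
          (Finset.mem_erase.mpr ⟨hyx, hy⟩), rfl⟩)
  · apply convexHull_mono
    rintro p (hp | ⟨y, hy, rfl⟩)
    · obtain ⟨j, hj⟩ := Set.mem_iUnion.mp hp
      by_cases hji : j = i
      · subst hji
        rcases hj with rfl | hj
        · rw [hSi]
          rcases le_total (x j) (s j) with h | h
          · rw [max_eq_left h]
            exact Or.inl (Set.mem_iUnion.mpr ⟨j, by simp⟩)
          · rw [max_eq_right h]
            exact Or.inr ⟨x, hx, by simp only; rw [hsum]⟩
        · rw [Set.mem_singleton_iff] at hj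
          rw [hTi] at hj
          rcases le_total (-x j) (t j) with h | h
          · rw [max_eq_left h] at hj
            exact Or.inl (Set.mem_iUnion.mpr ⟨j, by simp [hj]⟩)
          · rw [max_eq_right h] at hj
            refine Or.inr ⟨x, hx, ?_⟩
            simp only
            rw [hsum, hj, neg_smul, sub_neg_eq_add]
      · rw [hSj j hji, hTj j hji] at hj
        exact Or.inl (Set.mem_iUnion.mpr ⟨j, hj⟩)
    · exact Or.inr ⟨y, Finset.mem_coe.mpr (Finset.mem_of_mem_erase hy), rfl⟩

theorem capsMain {d : ℕ} (hd : 1 ≤ d) {o : EuclideanSpace ℝ (Fin d)}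
    {v : Fin d → EuclideanSpace ℝ (Fin d)} (hv : LinearIndependent ℝ v) :
    ∀ (n : ℕ) (s t : Fin d → ℝ) (X : Finset (Fin d → ℝ)), X.card = n →
      (∀ i, 0 < s i) → (∀ i, 0 < t i) →
      (∀ x ∈ X, ∀ y ∈ X, x ≠ y →
        ∃ z ∈ segment ℝ (o + ∑ i, x i • v i) (o + ∑ i, y i • v i), z ∈ interior (hull o v s t)) →
      o ∈ interior (convexHull ℝ (pts o v s t X)) →
      SepBy (convexHull ℝ (pts o v s t X)) o (2 ^ d - 1) ∨
        IsCross (convexHull ℝ (pts o v s t X)) o := by
  classical
  have hspan : Submodule.span ℝ (Set.range v) = ⊤ :=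
    hv.span_eq_top_of_card_eq_finrank' (by simp)
  intro n
  induction n with
  | zero =>
    intro s t X hX hs ht _ _
    right
    have hX0 : X = ∅ := Finset.card_eq_zero.mp hX
    have : convexHull ℝ (pts o v s t X) = hull o v s t := by
      rw [hX0]
      unfold pts hull
      simp
    rw [this]
    exact isCross_of hv hs ht
  | succ n ih =>
    intro s t X hX hs ht hint ho
    by_cases h1 : ∃ x ∈ X, o + ∑ i, x i • v i ∈ hull o v s t
    · obtain ⟨x, hx, hP⟩ := h1
      have heq := pts_erase (X := X) hP
      rw [heq] at ho ⊢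
      refine ih s t (X.erase x) (by rw [Finset.card_erase_of_mem hx, hX]; rfl) hs ht ?_ ho
      intro y hy z hz hyz
      exact hint y (Finset.mem_of_mem_erase hy) z (Finset.mem_of_mem_erase hz) hyz
    by_cases h2 : ∃ x ∈ X, ∃ i, ∀ j, j ≠ i → x j = 0
    · obtain ⟨x, hx, i, hxi⟩ := h2
      obtain ⟨heq, hsub⟩ := pts_enlarge (o := o) (v := v) hd hs ht hx hxi
      rw [heq] at ho ⊢
      refine ih _ _ (X.erase x) (by rw [Finset.card_erase_of_mem hx, hX]; rfl) ?_ ?_ ?_ ho
      · intro j
        by_cases h : j = i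
        · rw [h, Function.update_self]; exact lt_max_of_lt_left (hs i)
        · rw [Function.update_of_ne h]; exact hs j
      · intro j
        by_cases h : j = i
        · rw [h, Function.update_self]; exact lt_max_of_lt_left (ht i)
        · rw [Function.update_of_ne h]; exact ht j
      · intro y hy z hz hyz
        obtain ⟨w, hw, hw2⟩ :=
          hint y (Finset.mem_of_mem_erase hy) z (Finset.mem_of_mem_erase hz) hyz
        exact ⟨w, hw, interior_mono hsub hw2⟩
    · push Not at h1 h2
      refine nondeg hd hspan hs ht (caps_disjoint hspan hs ht hint) h2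
        (fun x hx => big_of_not_mem hd hs ht (h1 x hx)) ?_ ho
      rw [← Finset.card_pos, hX]
      exact Nat.succ_pos n

/-- The final form. -/
theorem caps_result {d : ℕ} (hd : 1 ≤ d) {K : Set (EuclideanSpace ℝ (Fin d))}
    {o : EuclideanSpace ℝ (Fin d)} (ho : o ∈ interior K)
    {v : Fin d → EuclideanSpace ℝ (Fin d)} (hv : LinearIndependent ℝ v) {t : Fin d → ℝ}
    (ht : ∀ i, 0 < t i) {X : Set (EuclideanSpace ℝ (Fin d))} (hX : X.Finite)
    (hint : ∀ x ∈ X, ∀ y ∈ X, x ≠ y → (segment ℝ x y ∩ interior (convexHull ℝ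
      (⋃ i, ({o + v i, o - t i • v i} : Set (EuclideanSpace ℝ (Fin d)))))).Nonempty)
    (hK : K = convexHull ℝ
      ((⋃ i, ({o + v i, o - t i • v i} : Set (EuclideanSpace ℝ (Fin d)))) ∪ X)) :
    SepBy K o (2 ^ d - 1) ∨ IsCross K o := by
  classical
  have hcard : Fintype.card (Fin d) = Module.finrank ℝ (EuclideanSpace ℝ (Fin d)) := by simp
  have : Nonempty (Fin d) := ⟨⟨0, hd⟩⟩
  let b := basisOfLinearIndependentOfCardEqFinrank hv hcard
  have hb : ∀ i, b i = v i := fun i => by simp [b]
  let co : EuclideanSpace ℝ (Fin d) → (Fin d → ℝ) := fun x => b.repr (x - o)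
  have hco : ∀ x, o + ∑ i, co x i • v i = x := by
    intro x
    have h := b.sum_repr (x - o)
    simp only [hb] at h
    show o + ∑ i, b.repr (x - o) i • v i = x
    rw [h]
    abel
  let X' : Finset (Fin d → ℝ) := hX.toFinset.image co
  have himg : (fun x : Fin d → ℝ => o + ∑ i, x i • v i) '' (X' : Set (Fin d → ℝ)) = X := by
    ext p
    constructor
    · rintro ⟨x, hx, rfl⟩
      obtain ⟨y, hy, rfl⟩ := Finset.mem_image.mp (Finset.mem_coe.mp hx)
      simp only
      rw [hco]
      exact hX.mem_toFinset.mp hy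
    · intro hp
      refine ⟨co p, Finset.mem_coe.mpr (Finset.mem_image.mpr ⟨p, hX.mem_toFinset.mpr hp, rfl⟩), ?_⟩
      exact hco p
  have hpts : pts o v (fun _ => 1) t X' =
      (⋃ i, ({o + v i, o - t i • v i} : Set (EuclideanSpace ℝ (Fin d)))) ∪ X := by
    unfold pts
    rw [himg]
    simp
  have hhull : hull o v (fun _ => 1) t = convexHull ℝ
      (⋃ i, ({o + v i, o - t i • v i} : Set (EuclideanSpace ℝ (Fin d)))) := by
    unfold hull
    simp
  have h := capsMain hd hv (o := o) X'.card (fun _ => 1) t X' rfl (fun _ => one_pos) ht (by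
    intro x hx y hy hxy
    obtain ⟨x', hx', rfl⟩ := Finset.mem_image.mp hx
    obtain ⟨y', hy', rfl⟩ := Finset.mem_image.mp hy
    obtain ⟨z, hz1, hz2⟩ := hint x' (hX.mem_toFinset.mp hx') y' (hX.mem_toFinset.mp hy')
      (fun h => hxy (by rw [h]))
    refine ⟨z, ?_, ?_⟩
    · rw [hco, hco]; exact hz1
    · rw [hhull]; exact hz2) (by rw [hpts, ← hK]; exact ho)
  rw [hpts, ← hK] at h
  exact h

end Pool.Agent.H210R3.Seg
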