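import Mathlib

set_option autoImplicit false

/-!
# From sign vectors to separating hyperplanes
-/

open Finset Filter Topology
open scoped InnerProductSpace

namespace Pool.Agent.H210R3.Seg

/-- The hull of the segments `[o - t i • v i, o + s i • v i]`. -/
def hull {ι : Type*} {d : ℕ} (o : EuclideanSpace ℝ (Fin d)) (v : ι → EuclideanSpace ℝ (Fin d))
    (s t : ι → ℝ) : Set (EuclideanSpace ℝ (Fin d)) :=
  convexHull ℝ (⋃ i, ({o + s i • v i, o - t i • v i} : Set (EuclideanSpace ℝ (Fin d))))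

/-- `N` hyperplanes separate all faces of `K` strictly from `o`. -/
def SepBy {d : ℕ} (K : Set (EuclideanSpace ℝ (Fin d))) (o : EuclideanSpace ℝ (Fin d)) (N : ℕ) :
    Prop :=
  ∃ w : Fin N → EuclideanSpace ℝ (Fin d), ∃ b : Fin N → ℝ,
    ∀ u x₀ : EuclideanSpace ℝ (Fin d), u ≠ 0 → x₀ ∈ K →
      (∀ y ∈ K, ⟪u, y⟫_ℝ ≤ ⟪u, x₀⟫_ℝ) →
        ∃ i, ⟪w i, o⟫_ℝ < b i ∧ ∀ x ∈ K, ⟪u, x⟫_ℝ = ⟪u, x₀⟫_ℝ → b i < ⟪w i, x⟫_ℝ

theorem SepBy.mono {d : ℕ} {K : Set (EuclideanSpace ℝ (Fin d))} {o : EuclideanSpace ℝ (Fin d)}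
    {M N : ℕ} (h : SepBy K o M) (hMN : M ≤ N) : SepBy K o N := by
  obtain ⟨w, b, hwb⟩ := h
  refine ⟨fun i => if h : i.1 < M then w ⟨i.1, h⟩ else 0,
    fun i => if h : i.1 < M then b ⟨i.1, h⟩ else 0, fun u x₀ hu hx₀ hmax => ?_⟩
  obtain ⟨i, hi⟩ := hwb u x₀ hu hx₀ hmax
  refine ⟨Fin.castLE hMN i, ?_⟩
  simpa using hi

theorem left_mem {ι : Type*} {d : ℕ} (o : EuclideanSpace ℝ (Fin d))
    (v : ι → EuclideanSpace ℝ (Fin d)) (s t : ι → ℝ) (i : ι) : o + s i • v i ∈ hull o v s t :=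
  subset_convexHull ℝ _ (Set.mem_iUnion.mpr ⟨i, by simp⟩)

theorem right_mem {ι : Type*} {d : ℕ} (o : EuclideanSpace ℝ (Fin d))
    (v : ι → EuclideanSpace ℝ (Fin d)) (s t : ι → ℝ) (i : ι) : o - t i • v i ∈ hull o v s t :=
  subset_convexHull ℝ _ (Set.mem_iUnion.mpr ⟨i, by simp⟩)

/-- The height of the supporting hyperplane over an interior point is positive. -/
theorem height_pos {d : ℕ} {K : Set (EuclideanSpace ℝ (Fin d))} {o u x₀ : EuclideanSpace ℝ (Fin d)}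
    (ho : o ∈ interior K) (hu : u ≠ 0) (hmax : ∀ y ∈ K, ⟪u, y⟫_ℝ ≤ ⟪u, x₀⟫_ℝ) :
    0 < ⟪u, x₀⟫_ℝ - ⟪u, o⟫_ℝ := by
  have h1 : ∀ᶠ ε : ℝ in 𝓝[>] 0, o + ε • u ∈ K := by
    have hc : Continuous fun ε : ℝ => o + ε • u := by fun_prop
    have h2 : Tendsto (fun ε : ℝ => o + ε • u) (𝓝[>] 0) (𝓝 o) := by
      have := hc.tendsto 0
      simp only [zero_smul, add_zero] at this
      exact this.mono_left nhdsWithin_le_nhds
    exact h2.eventually (mem_interior_iff_mem_nhds.mp ho)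
  have h2 : ∀ᶠ ε : ℝ in 𝓝[>] 0, 0 < ε := self_mem_nhdsWithin
  obtain ⟨ε, h, hε⟩ := (h1.and h2).exists
  have h3 := hmax _ h
  rw [inner_add_right, real_inner_smul_right, real_inner_self_eq_norm_sq] at h3
  have h4 : 0 < ‖u‖ := norm_pos_iff.mpr hu
  have h5 : 0 < ε * ‖u‖ ^ 2 := by positivity
  linarith

theorem sep {d : ℕ} {ι : Type*} [Fintype ι] [Nonempty ι] [DecidableEq ι]
    {o : EuclideanSpace ℝ (Fin d)} {v : ι → EuclideanSpace ℝ (Fin d)} {s t : ι → ℝ}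
    (hs : ∀ i, 0 < s i) (ht : ∀ i, 0 < t i) (ho : o ∈ interior (hull o v s t))
    (N : ℕ) (C : Finset (ι → Bool)) (hC : C.card ≤ N)
    (hw : ∀ ε ∈ C, ∃ w : EuclideanSpace ℝ (Fin d), ∀ i,
      (ε i = true → 0 < ⟪w, v i⟫_ℝ) ∧ (ε i = false → ⟪w, v i⟫_ℝ < 0))
    (hcov : ∀ u : EuclideanSpace ℝ (Fin d),
      (∀ i, -(1 / t i) ≤ ⟪u, v i⟫_ℝ ∧ ⟪u, v i⟫_ℝ ≤ 1 / s i) →
      ∃ ε ∈ C, ∀ i, (⟪u, v i⟫_ℝ = 1 / s i → ε i = true) ∧
        (⟪u, v i⟫_ℝ = -(1 / t i) → ε i = false)) :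
    SepBy (hull o v s t) o N := by
  classical
  have hw' : ∀ ε : ι → Bool, ∃ w : EuclideanSpace ℝ (Fin d), ε ∈ C → ∀ i,
      (ε i = true → 0 < ⟪w, v i⟫_ℝ) ∧ (ε i = false → ⟪w, v i⟫_ℝ < 0) := by
    intro ε
    by_cases h : ε ∈ C
    · obtain ⟨w, hw⟩ := hw ε h
      exact ⟨w, fun _ => hw⟩
    · exact ⟨0, fun h' => absurd h' h⟩
  choose w hw using hw'
  have hδ : ∀ ε : ι → Bool, ∃ δ : ℝ, 0 < δ ∧ (ε ∈ C → ∀ i,
      (ε i = true → 2 * δ ≤ s i * ⟪w ε, v i⟫_ℝ) ∧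
      (ε i = false → 2 * δ ≤ -(t i * ⟪w ε, v i⟫_ℝ))) := by
    intro ε
    by_cases h : ε ∈ C
    · obtain ⟨i₀, -, hi₀⟩ := Finset.exists_min_image (univ : Finset ι)
        (fun i => if ε i = true then s i * ⟪w ε, v i⟫_ℝ else -(t i * ⟪w ε, v i⟫_ℝ))
        Finset.univ_nonempty
      refine ⟨(if ε i₀ = true then s i₀ * ⟪w ε, v i₀⟫_ℝ else -(t i₀ * ⟪w ε, v i₀⟫_ℝ)) / 2, ?_, ?_⟩
      · have h1 := hw ε h i₀
        by_cases hb : ε i₀ = true
        · simp only [hb, if_true]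
          have := mul_pos (hs i₀) (h1.1 hb)
          linarith
        · have hb' : ε i₀ = false := by simpa using hb
          simp only [hb', Bool.false_eq_true, if_false]
          have := mul_neg_of_pos_of_neg (ht i₀) (h1.2 hb')
          linarith
      · intro _ i
        have h1 := hi₀ i (mem_univ _)
        constructor
        · intro hb
          simp only [hb, if_true] at h1
          linarith
        · intro hb
          simp only [hb, Bool.false_eq_true, if_false] at h1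
          linarith
    · exact ⟨1, one_pos, fun h' => absurd h' h⟩
  choose δ hδ0 hδ using hδ
  let g : Fin N → (ι → Bool) := fun i =>
    if h : i.1 < C.card then (C.equivFin.symm ⟨i.1, h⟩).1 else fun _ => true
  have hg : ∀ ε ∈ C, ∃ i, g i = ε := by
    intro ε hε
    refine ⟨Fin.castLE hC (C.equivFin ⟨ε, hε⟩), ?_⟩
    simp [g]
  refine ⟨fun i => w (g i), fun i => ⟪w (g i), o⟫_ℝ + δ (g i), fun u x₀ hu hx₀ hmax => ?_⟩
  have hh := height_pos ho hu hmax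
  set h := ⟪u, x₀⟫_ℝ - ⟪u, o⟫_ℝ with hhdef
  have hleft : ∀ i, s i * ⟪u, v i⟫_ℝ ≤ h := by
    intro i
    have := hmax _ (left_mem o v s t i)
    rw [inner_add_right, real_inner_smul_right] at this
    linarith
  have hright : ∀ i, -(t i * ⟪u, v i⟫_ℝ) ≤ h := by
    intro i
    have := hmax _ (right_mem o v s t i)
    rw [inner_sub_right, real_inner_smul_right] at this
    linarith
  obtain ⟨ε, hεC, hε⟩ := hcov (h⁻¹ • u) (by
    intro i
    rw [real_inner_smul_left, inv_mul_eq_div]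
    have h1 := hleft i
    have h2 := hright i
    constructor
    · rw [neg_le, ← neg_div, div_le_div_iff₀ hh (ht i)]
      linarith
    · rw [div_le_div_iff₀ hh (hs i)]
      linarith)
  obtain ⟨i, hi⟩ := hg ε hεC
  refine ⟨i, ?_, ?_⟩
  · linarith [hδ0 (g i)]
  beta_reduce
  rw [hi]
  intro x hx hxu
  -- a large constant
  have hM : ∀ᶠ M : ℝ in atTop, ∀ j,
      (2 * δ ε - M * (h - s j * ⟪u, v j⟫_ℝ) ≤ s j * ⟪w ε, v j⟫_ℝ) ∧
      (2 * δ ε - M * (h + t j * ⟪u, v j⟫_ℝ) ≤ -(t j * ⟪w ε, v j⟫_ℝ)) := by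
    rw [eventually_all]
    intro j
    have hbig : ∀ c e : ℝ, 0 < c → ∀ᶠ M : ℝ in atTop, 2 * δ ε - M * c ≤ e := by
      intro c e hc
      filter_upwards [eventually_ge_atTop ((2 * δ ε - e) / c)] with M hM
      rw [div_le_iff₀ hc] at hM
      linarith
    apply Filter.Eventually.and
    · rcases (hleft j).eq_or_lt with heq | hlt
      · have h1 : ε j = true := (hε j).1 (by
          rw [real_inner_smul_left, inv_mul_eq_div, div_eq_div_iff hh.ne' (hs j).ne']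
          linarith)
        have h2 := (hδ ε hεC j).1 h1
        filter_upwards with M
        rw [heq]
        linarith
      · exact hbig _ _ (by linarith)
    · rcases (hright j).eq_or_lt with heq | hlt
      · have h1 : ε j = false := (hε j).2 (by
          rw [real_inner_smul_left, inv_mul_eq_div, ← neg_div, div_eq_div_iff hh.ne' (ht j).ne']
          linarith)
        have h2 := (hδ ε hεC j).2 h1
        filter_upwards with M
        have : h + t j * ⟪u, v j⟫_ℝ = 0 := by linarith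
        rw [this]
        linarith
      · exact hbig _ _ (by linarith)
  obtain ⟨M, hM⟩ := hM.exists
  have hsub : hull o v s t ⊆ {x | ⟪w ε, o⟫_ℝ + 2 * δ ε ≤
      ⟪w ε, x⟫_ℝ + M * (⟪u, x₀⟫_ℝ - ⟪u, x⟫_ℝ)} := by
    refine convexHull_min ?_ ?_
    · intro p hp
      obtain ⟨j, hj⟩ := Set.mem_iUnion.mp hp
      rcases hj with rfl | hj
      · show ⟪w ε, o⟫_ℝ + 2 * δ ε ≤ ⟪w ε, o + s j • v j⟫_ℝ + M * (⟪u, x₀⟫_ℝ - ⟪u, o + s j • v j⟫_ℝ)
        rw [inner_add_right, inner_add_right, real_inner_smul_right, real_inner_smul_right]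
        have h1 := (hM j).1
        have h2 : ⟪u, x₀⟫_ℝ - (⟪u, o⟫_ℝ + s j * ⟪u, v j⟫_ℝ) = h - s j * ⟪u, v j⟫_ℝ := by
          rw [hhdef]; ring
        rw [h2]
        linarith
      · rw [Set.mem_singleton_iff] at hj
        subst hj
        show ⟪w ε, o⟫_ℝ + 2 * δ ε ≤ ⟪w ε, o - t j • v j⟫_ℝ + M * (⟪u, x₀⟫_ℝ - ⟪u, o - t j • v j⟫_ℝ)
        rw [inner_sub_right, inner_sub_right, real_inner_smul_right, real_inner_smul_right]
        have h1 := (hM j).2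
        have h2 : ⟪u, x₀⟫_ℝ - (⟪u, o⟫_ℝ - t j * ⟪u, v j⟫_ℝ) = h + t j * ⟪u, v j⟫_ℝ := by
          rw [hhdef]; ring
        rw [h2]
        linarith
    · intro x hx y hy a b ha hb hab
      have hx' : ⟪w ε, o⟫_ℝ + 2 * δ ε ≤ ⟪w ε, x⟫_ℝ + M * (⟪u, x₀⟫_ℝ - ⟪u, x⟫_ℝ) := hx
      have hy' : ⟪w ε, o⟫_ℝ + 2 * δ ε ≤ ⟪w ε, y⟫_ℝ + M * (⟪u, x₀⟫_ℝ - ⟪u, y⟫_ℝ) := hy
      show ⟪w ε, o⟫_ℝ + 2 * δ ε ≤ ⟪w ε, a • x + b • y⟫_ℝ + M * (⟪u, x₀⟫_ℝ - ⟪u, a • x + b • y⟫_ℝ)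
      rw [inner_add_right, inner_add_right, real_inner_smul_right, real_inner_smul_right,
        real_inner_smul_right, real_inner_smul_right]
      have e1 : b = 1 - a := by linarith
      have h1 := mul_le_mul_of_nonneg_left hx' ha
      have h2 := mul_le_mul_of_nonneg_left hy' hb
      subst e1
      nlinarith
  have hfin : ⟪w ε, o⟫_ℝ + 2 * δ ε ≤ ⟪w ε, x⟫_ℝ + M * (⟪u, x₀⟫_ℝ - ⟪u, x⟫_ℝ) := hsub hx
  rw [hxu, sub_self, mul_zero, add_zero] at hfin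
  linarith [hδ0 ε]

end Pool.Agent.H210R3.Seg
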