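import Pool.Agent.H210R3.Seg.Comb
import Pool.Agent.H210R3.Seg.Sep

set_option autoImplicit false

/-!
# Hulls of `d + 1` segments through a point of `ℝ^d`
-/

open Finset Filter Topology
open scoped InnerProductSpace

namespace Pool.Agent.H210R3.Seg

/-- `K` is a cross-body centred at `o`. -/
def IsCross {d : ℕ} (K : Set (EuclideanSpace ℝ (Fin d))) (o : EuclideanSpace ℝ (Fin d)) : Prop :=
  ∃ v : Fin d → EuclideanSpace ℝ (Fin d), ∃ t : Fin d → ℝ,
    LinearIndependent ℝ v ∧ (∀ i, 0 < t i) ∧
      K = convexHull ℝ (⋃ i, ({o + v i, o - t i • v i} : Set (EuclideanSpace ℝ (Fin d))))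

/-- If `v` is a basis, all values of the inner products are possible. -/
theorem realize {d : ℕ} (v : Fin d → EuclideanSpace ℝ (Fin d))
    (hv : Submodule.span ℝ (Set.range v) = ⊤) (z : Fin d → ℝ) :
    ∃ w : EuclideanSpace ℝ (Fin d), ∀ i, ⟪w, v i⟫_ℝ = z i := by
  let T : EuclideanSpace ℝ (Fin d) →ₗ[ℝ] (Fin d → ℝ) :=
    LinearMap.pi fun i => innerₛₗ ℝ (v i)
  have hT : ∀ w i, T w i = ⟪v i, w⟫_ℝ := fun w i => rfl
  have hinj : Function.Injective T := by
    rw [← LinearMap.ker_eq_bot, LinearMap.ker_eq_bot']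
    intro w hw
    have h1 : ∀ x ∈ Submodule.span ℝ (Set.range v), ⟪x, w⟫_ℝ = 0 := by
      intro x hx
      induction hx using Submodule.span_induction with
      | mem x hx =>
        obtain ⟨i, rfl⟩ := hx
        rw [← hT, hw]; rfl
      | zero => exact inner_zero_left _
      | add x y _ _ hx hy => rw [inner_add_left, hx, hy, add_zero]
      | smul c x _ hx => rw [real_inner_smul_left, hx, mul_zero]
    exact inner_self_eq_zero.mp (h1 w (by rw [hv]; trivial))
  have hsurj : Function.Surjective T :=
    (LinearMap.injective_iff_surjective_of_finrank_eq_finrank (by simp)).mp hinj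
  obtain ⟨w, hw⟩ := hsurj z
  refine ⟨w, fun i => ?_⟩
  rw [real_inner_comm, ← hT, hw]

theorem cross_sep {d : ℕ} (hd : 1 ≤ d) {K : Set (EuclideanSpace ℝ (Fin d))}
    {o : EuclideanSpace ℝ (Fin d)} (ho : o ∈ interior K) (h : IsCross K o) : SepBy K o (2 ^ d) := by
  classical
  obtain ⟨v, t, hv, ht, hK⟩ := h
  have hK' : K = hull o v (fun _ => 1) t := by
    rw [hK]
    simp [hull]
  rw [hK'] at ho ⊢
  have : Nonempty (Fin d) := ⟨⟨0, hd⟩⟩
  have hspan : Submodule.span ℝ (Set.range v) = ⊤ :=
    hv.span_eq_top_of_card_eq_finrank' (by simp)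
  refine sep (fun _ => one_pos) ht ho (2 ^ d) univ (by simp) ?_ ?_
  · intro ε _
    obtain ⟨w, hw⟩ := realize v hspan (fun i => if ε i = true then 1 else -1)
    refine ⟨w, fun i => ?_⟩
    rw [hw]
    constructor
    · intro h; simp [h]
    · intro h; simp [h]
  · intro u hu
    refine ⟨fun i => decide (⟪u, v i⟫_ℝ = 1 / 1), mem_univ _, fun i => ⟨fun h => by simpa using h, ?_⟩⟩
    intro h
    have h1 : 0 < 1 / t i := by have := ht i; positivity
    have h2 : ⟪u, v i⟫_ℝ ≠ 1 / 1 := by
      rw [h]; intro h'; linarith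
    simpa using h2

/-- Omitting a vector with nonzero coefficient in the relation. -/
theorem others {d : ℕ} {v : Fin (d + 1) → EuclideanSpace ℝ (Fin d)}
    (hv : Submodule.span ℝ (Set.range v) = ⊤) {a : Fin (d + 1) → ℝ} (hrel : ∑ i, a i • v i = 0)
    {p : Fin (d + 1)} (hp : a p ≠ 0) :
    Submodule.span ℝ (Set.range (v ∘ p.succAbove)) = ⊤ ∧
      LinearIndependent ℝ (v ∘ p.succAbove) := by
  have h1 : Submodule.span ℝ (Set.range (v ∘ p.succAbove)) = ⊤ := by
    rw [eq_top_iff, ← hv, Submodule.span_le]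
    rintro _ ⟨i, rfl⟩
    rcases Fin.eq_self_or_eq_succAbove p i with rfl | ⟨k, rfl⟩
    · rw [Fin.sum_univ_succAbove _ i] at hrel
      have h2 : v i = -((a i)⁻¹ • ∑ k, a (i.succAbove k) • v (i.succAbove k)) := by
        have h3 : a i • v i = -∑ k, a (i.succAbove k) • v (i.succAbove k) :=
          eq_neg_of_add_eq_zero_left hrel
        rw [← smul_neg, ← h3, smul_smul, inv_mul_cancel₀ hp, one_smul]
      rw [SetLike.mem_coe, h2]
      refine Submodule.neg_mem _ (Submodule.smul_mem _ _ (Submodule.sum_mem _ fun k _ => ?_))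
      exact Submodule.smul_mem _ _ (Submodule.subset_span ⟨k, rfl⟩)
    · exact Submodule.subset_span ⟨k, rfl⟩
  exact ⟨h1, linearIndependent_of_top_le_span_of_card_eq_finrank h1.ge (by simp)⟩

theorem realize' {d : ℕ} {v : Fin (d + 1) → EuclideanSpace ℝ (Fin d)}
    (hv : Submodule.span ℝ (Set.range v) = ⊤) {a : Fin (d + 1) → ℝ} (hrel : ∑ i, a i • v i = 0)
    {p : Fin (d + 1)} (hp : a p ≠ 0) (z : Fin (d + 1) → ℝ) (hz : ∑ i, a i * z i = 0) :
    ∃ w : EuclideanSpace ℝ (Fin d), ∀ i, ⟪w, v i⟫_ℝ = z i := by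
  obtain ⟨w, hw⟩ := realize (v ∘ p.succAbove) (others hv hrel hp).1 (z ∘ p.succAbove)
  have h1 : ∑ i, a i * ⟪w, v i⟫_ℝ = 0 := by
    have : ⟪w, ∑ i, a i • v i⟫_ℝ = 0 := by rw [hrel, inner_zero_right]
    rw [inner_sum] at this
    simpa [real_inner_smul_right] using this
  rw [Fin.sum_univ_succAbove _ p] at h1 hz
  have h2 : ∀ k, ⟪w, v (p.succAbove k)⟫_ℝ = z (p.succAbove k) := fun k => hw k
  simp only [h2] at h1
  refine ⟨w, fun i => ?_⟩
  rcases Fin.eq_self_or_eq_succAbove p i with rfl | ⟨k, rfl⟩
  · exact mul_left_cancel₀ hp (by linarith)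
  · exact h2 k

theorem span_top {d : ℕ} {ι : Type*} {o : EuclideanSpace ℝ (Fin d)}
    {v : ι → EuclideanSpace ℝ (Fin d)} {s t : ι → ℝ} (ho : o ∈ interior (hull o v s t)) :
    Submodule.span ℝ (Set.range v) = ⊤ := by
  rw [← Submodule.orthogonal_eq_bot_iff, eq_bot_iff]
  intro u hu
  rw [Submodule.mem_bot]
  by_contra hne
  have hv : ∀ i, ⟪u, v i⟫_ℝ = 0 := fun i => by
    rw [real_inner_comm]
    exact (Submodule.mem_orthogonal _ u).mp hu _ (Submodule.subset_span ⟨i, rfl⟩)
  have hsub : hull o v s t ⊆ {x | ⟪u, x⟫_ℝ = ⟪u, o⟫_ℝ} := by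
    refine convexHull_min ?_ ?_
    · intro p hp
      obtain ⟨j, hj⟩ := Set.mem_iUnion.mp hp
      rcases hj with rfl | hj
      · show ⟪u, o + s j • v j⟫_ℝ = ⟪u, o⟫_ℝ
        rw [inner_add_right, real_inner_smul_right, hv, mul_zero, add_zero]
      · rw [Set.mem_singleton_iff] at hj
        subst hj
        show ⟪u, o - t j • v j⟫_ℝ = ⟪u, o⟫_ℝ
        rw [inner_sub_right, real_inner_smul_right, hv, mul_zero, sub_zero]
    · intro x hx y hy a b ha hb hab
      have hx' : ⟪u, x⟫_ℝ = ⟪u, o⟫_ℝ := hx
      have hy' : ⟪u, y⟫_ℝ = ⟪u, o⟫_ℝ := hy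
      show ⟪u, a • x + b • y⟫_ℝ = ⟪u, o⟫_ℝ
      rw [inner_add_right, real_inner_smul_right, real_inner_smul_right, hx', hy', ← add_mul, hab,
        one_mul]
  have h := height_pos (x₀ := o) ho hne (fun y hy => (hsub hy).le)
  simp at h

/-- Replacing `v i` by `-v i` for `i` in a set. -/
theorem hull_flip {d : ℕ} {ι : Type*} (o : EuclideanSpace ℝ (Fin d))
    (v : ι → EuclideanSpace ℝ (Fin d)) (s t : ι → ℝ) (σ : ι → Bool) :
    hull o (fun i => if σ i = true then -v i else v i) (fun i => if σ i = true then t i else s i)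
      (fun i => if σ i = true then s i else t i) = hull o v s t := by
  unfold hull
  congr 1
  refine Set.iUnion_congr fun i => ?_
  by_cases h : σ i = true
  · simp only [h, if_true, smul_neg, sub_neg_eq_add, ← sub_eq_add_neg]
    exact Set.pair_comm _ _
  · simp only [h, Bool.false_eq_true, if_false]

theorem caseIII {d : ℕ} {o : EuclideanSpace ℝ (Fin d)} {v : Fin (d + 1) → EuclideanSpace ℝ (Fin d)}
    {s t : Fin (d + 1) → ℝ} (hs : ∀ i, 0 < s i) (ht : ∀ i, 0 < t i)
    (ho : o ∈ interior (hull o v s t)) {a : Fin (d + 1) → ℝ} (ha : ∀ i, 0 ≤ a i)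
    (hrel : ∑ i, a i • v i = 0) {m j k : Fin (d + 1)}
    (hm : ∀ i, a i * (1 / s i + 1 / t i) ≤ a m * (1 / s m + 1 / t m))
    (ham : 0 < a m) (haj : 0 < a j) (hak : 0 < a k) (hjm : j ≠ m) (hkm : k ≠ m) (hjk : j ≠ k)
    (hIII : a m * (1 / t m) < ∑ i ∈ univ.erase m, a i * (1 / s i)) :
    SepBy (hull o v s t) o (2 ^ d - 1) := by
  classical
  have hv := span_top ho
  obtain ⟨C, hC, hnc, hcov⟩ := cover (α := fun i => 1 / s i) (β := fun i => 1 / t i) ha
    (fun i => one_div_pos.mpr (hs i)) (fun i => one_div_pos.mpr (ht i)) hm ham haj hak hjm hkm hjk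
    hIII
  rw [Fintype.card_fin, pow_succ] at hC
  refine sep hs ht ho _ C (by omega) ?_ ?_
  · intro ε hε
    obtain ⟨⟨i, hi, hit⟩, ⟨l, hl, hlf⟩⟩ := hnc ε hε
    set P : ℝ := ∑ i, if ε i = true then a i else 0 with hP
    set Q : ℝ := ∑ i, if ε i = true then 0 else a i with hQ
    have hPpos : 0 < P := Finset.sum_pos' (fun i _ => by split_ifs <;> [exact ha i; exact le_rfl])
      ⟨i, mem_univ _, by rw [if_pos hit]; exact hi⟩
    have hQpos : 0 < Q := Finset.sum_pos' (fun i _ => by split_ifs <;> [exact le_rfl; exact ha i])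
      ⟨l, mem_univ _, by rw [if_neg (by simp [hlf])]; exact hl⟩
    obtain ⟨w, hw⟩ := realize' hv hrel ham.ne' (fun i => if ε i = true then Q else -P) (by
      have h1 : ∀ i, a i * (if ε i = true then Q else -P) =
          (if ε i = true then a i else 0) * Q - (if ε i = true then 0 else a i) * P := by
        intro i; split_ifs <;> ring
      simp only [h1, Finset.sum_sub_distrib, ← Finset.sum_mul, ← hP, ← hQ]
      ring)
    refine ⟨w, fun i => ?_⟩
    rw [hw]
    constructor
    · intro h; simp only [h, if_true]; exact hQpos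
    · intro h; simp only [h, Bool.false_eq_true, if_false]; linarith
  · intro u hu
    have h1 : ∑ i, a i * ⟪u, v i⟫_ℝ = 0 := by
      have : ⟪u, ∑ i, a i • v i⟫_ℝ = 0 := by rw [hrel, inner_zero_right]
      rw [inner_sum] at this
      simpa [real_inner_smul_right] using this
    exact hcov (fun i => ⟪u, v i⟫_ℝ) hu h1

theorem hull_convex {d : ℕ} {ι : Type*} (o : EuclideanSpace ℝ (Fin d))
    (v : ι → EuclideanSpace ℝ (Fin d)) (s t : ι → ℝ) : Convex ℝ (hull o v s t) :=
  convex_convexHull ℝ _

theorem comb_mem {d n : ℕ} {H : Set (EuclideanSpace ℝ (Fin d))} (hH : Convex ℝ H)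
    {o : EuclideanSpace ℝ (Fin d)} (ho : o ∈ H) (q : Fin n → EuclideanSpace ℝ (Fin d))
    (hq : ∀ k, o + q k ∈ H) (l : Fin n → ℝ) (hl : ∀ k, 0 ≤ l k) (hsum : ∑ k, l k ≤ 1) :
    o + ∑ k, l k • q k ∈ H := by
  have h := hH.sum_mem (t := (univ : Finset (Fin (n + 1))))
    (w := Fin.cons (1 - ∑ k, l k) l) (z := Fin.cons o (fun k => o + q k))
    (by
      intro i _
      refine Fin.cases ?_ (fun k => ?_) i
      · simpa using hsum
      · simpa using hl k)
    (by rw [Fin.sum_univ_succ]; simp)
    (by
      intro i _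
      refine Fin.cases ?_ (fun k => ?_) i
      · simpa using ho
      · simpa using hq k)
  rw [Fin.sum_univ_succ] at h
  simp only [Fin.cons_zero, Fin.cons_succ, smul_add, Finset.sum_add_distrib, ← Finset.sum_smul]
    at h
  have e : (1 - ∑ k, l k) • o + ((∑ k, l k) • o + ∑ k, l k • q k) = o + ∑ k, l k • q k := by
    rw [← add_assoc, ← add_smul, sub_add_cancel, one_smul]
  rwa [e] at h

theorem o_mem {d : ℕ} {ι : Type*} [Nonempty ι] {o : EuclideanSpace ℝ (Fin d)}
    {v : ι → EuclideanSpace ℝ (Fin d)} {s t : ι → ℝ} (hs : ∀ i, 0 < s i) (ht : ∀ i, 0 < t i) :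
    o ∈ hull o v s t := by
  obtain ⟨i⟩ := ‹Nonempty ι›
  have h := hull_convex o v s t (left_mem o v s t i) (right_mem o v s t i)
    (a := t i / (s i + t i)) (b := s i / (s i + t i))
    (by have := hs i; have := ht i; positivity) (by have := hs i; have := ht i; positivity)
    (by have := hs i; have := ht i; field_simp; ring)
  have e : (t i / (s i + t i)) • (o + s i • v i) + (s i / (s i + t i)) • (o - t i • v i) = o := by
    rw [smul_add, smul_sub, smul_smul, smul_smul]
    have h1 : t i / (s i + t i) * s i = s i / (s i + t i) * t i := by ring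
    rw [h1]
    have h2 : t i / (s i + t i) + s i / (s i + t i) = 1 := by
      have := hs i; have := ht i; field_simp; ring
    calc _ = (t i / (s i + t i) + s i / (s i + t i)) • o := by rw [add_smul]; abel
      _ = o := by rw [h2, one_smul]
  rwa [e] at h

theorem between {d : ℕ} {H : Set (EuclideanSpace ℝ (Fin d))} (hH : Convex ℝ H)
    {o x : EuclideanSpace ℝ (Fin d)} (ho : o ∈ H) {c S : ℝ} (hS : 0 < S) (hc : 0 ≤ c) (hcS : c ≤ S)
    (hx : o + S • x ∈ H) : o + c • x ∈ H := by
  have h := hH ho hx (a := 1 - c / S) (b := c / S) (by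
    rw [sub_nonneg, div_le_one hS]; exact hcS) (by positivity) (by ring)
  have e : (1 - c / S) • o + (c / S) • (o + S • x) = o + c • x := by
    rw [smul_add, smul_smul, div_mul_cancel₀ _ hS.ne', ← add_assoc, ← add_smul, sub_add_cancel,
      one_smul]
  rwa [e] at h

/-- From the hull of `d` of the segments to the cross-body form. -/
theorem isCross_of {d : ℕ} {o : EuclideanSpace ℝ (Fin d)}
    {v : Fin d → EuclideanSpace ℝ (Fin d)} (hv : LinearIndependent ℝ v)
    {s t : Fin d → ℝ} (hs : ∀ i, 0 < s i) (ht : ∀ i, 0 < t i) : IsCross (hull o v s t) o := by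
  refine ⟨fun i => s i • v i, fun i => t i / s i, ?_, fun i => div_pos (ht i) (hs i), ?_⟩
  · have := hv.units_smul (fun i => Units.mk0 (s i) (hs i).ne')
    convert this using 1
    funext i
    rfl
  · unfold hull
    congr 1
    refine Set.iUnion_congr fun i => ?_
    rw [smul_smul, div_mul_cancel₀ _ (hs i).ne']

/-- One end of a redundant segment. -/
theorem redundant_left {d : ℕ} (hd : 1 ≤ d) {o : EuclideanSpace ℝ (Fin d)}
    {v : Fin (d + 1) → EuclideanSpace ℝ (Fin d)} {s t : Fin (d + 1) → ℝ} (hs : ∀ i, 0 < s i)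
    (ht : ∀ i, 0 < t i) {a : Fin (d + 1) → ℝ} (ha : ∀ i, 0 ≤ a i) (hrel : ∑ i, a i • v i = 0)
    {m : Fin (d + 1)} (ham : 0 < a m)
    (h : ∑ i ∈ univ.erase m, a i * (1 / t i) ≤ a m * (1 / s m)) :
    o + s m • v m ∈ hull o (v ∘ m.succAbove) (s ∘ m.succAbove) (t ∘ m.succAbove) := by
  have : Nonempty (Fin d) := ⟨⟨0, hd⟩⟩
  have hsum : ∑ i ∈ univ.erase m, a i * (1 / t i) =
      ∑ k, a (m.succAbove k) * (1 / t (m.succAbove k)) := by
    have h1 := Finset.add_sum_erase (univ : Finset (Fin (d + 1))) (fun i => a i * (1 / t i))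
      (mem_univ m)
    have h2 := Fin.sum_univ_succAbove (fun i => a i * (1 / t i)) m
    linarith
  rw [hsum] at h
  have h3 := comb_mem (hull_convex o (v ∘ m.succAbove) (s ∘ m.succAbove) (t ∘ m.succAbove))
    (o_mem (fun k => hs _) (fun k => ht _)) (fun k => -(t (m.succAbove k) • v (m.succAbove k)))
    (fun k => by
      rw [← sub_eq_add_neg]
      exact right_mem o (v ∘ m.succAbove) (s ∘ m.succAbove) (t ∘ m.succAbove) k)
    (fun k => s m / a m * (a (m.succAbove k) * (1 / t (m.succAbove k))))
    (fun k => by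
      have := hs m; have := ht (m.succAbove k); have := ha (m.succAbove k); positivity)
    (by
      rw [← Finset.mul_sum]
      calc s m / a m * ∑ k, a (m.succAbove k) * (1 / t (m.succAbove k)) ≤
          s m / a m * (a m * (1 / s m)) :=
            mul_le_mul_of_nonneg_left h (by have := hs m; positivity)
        _ = 1 := by have := hs m; field_simp)
  have h4 : ∑ k, (s m / a m * (a (m.succAbove k) * (1 / t (m.succAbove k)))) •
      (-(t (m.succAbove k) • v (m.succAbove k))) = s m • v m := by
    have h5 : ∀ k, (s m / a m * (a (m.succAbove k) * (1 / t (m.succAbove k)))) •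
        (-(t (m.succAbove k) • v (m.succAbove k))) =
        -((s m / a m) • (a (m.succAbove k) • v (m.succAbove k))) := by
      intro k
      rw [smul_neg, smul_smul, smul_smul]
      congr 2
      have := ht (m.succAbove k)
      field_simp
    simp only [h5, Finset.sum_neg_distrib, ← Finset.smul_sum]
    rw [Fin.sum_univ_succAbove _ m] at hrel
    have h6 : ∑ k, a (m.succAbove k) • v (m.succAbove k) = -(a m • v m) :=
      eq_neg_of_add_eq_zero_right hrel
    rw [h6, smul_neg, neg_neg, smul_smul, div_mul_cancel₀ _ ham.ne']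
  rw [h4] at h3
  exact h3

theorem caseV {d : ℕ} (hd : 1 ≤ d) {o : EuclideanSpace ℝ (Fin d)}
    {v : Fin (d + 1) → EuclideanSpace ℝ (Fin d)} {s t : Fin (d + 1) → ℝ} (hs : ∀ i, 0 < s i)
    (ht : ∀ i, 0 < t i) (ho : o ∈ interior (hull o v s t))
    {a : Fin (d + 1) → ℝ} (ha : ∀ i, 0 ≤ a i) (hrel : ∑ i, a i • v i = 0)
    {m : Fin (d + 1)} (ham : 0 < a m)
    (h1 : ∑ i ∈ univ.erase m, a i * (1 / s i) ≤ a m * (1 / t m))
    (h2 : ∑ i ∈ univ.erase m, a i * (1 / t i) ≤ a m * (1 / s m)) :
    IsCross (hull o v s t) o := by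
  have hv := span_top ho
  have heq : hull o v s t = hull o (v ∘ m.succAbove) (s ∘ m.succAbove) (t ∘ m.succAbove) := by
    apply Set.Subset.antisymm
    · refine convexHull_min ?_ (hull_convex _ _ _ _)
      intro p hp
      obtain ⟨j, hj⟩ := Set.mem_iUnion.mp hp
      rcases Fin.eq_self_or_eq_succAbove m j with rfl | ⟨k, rfl⟩
      · rcases hj with rfl | hj
        · exact redundant_left hd hs ht ha hrel ham h2
        · rw [Set.mem_singleton_iff] at hj
          subst hj
          have h3 := redundant_left (o := o) (v := fun i => if (fun _ => true : Fin (d + 1) → Bool) i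
            = true then -v i else v i) hd ht hs ha (by
              simp only [if_true, smul_neg, Finset.sum_neg_distrib, hrel, neg_zero]) ham h1
          have h4 := hull_flip o (v ∘ j.succAbove) (s ∘ j.succAbove) (t ∘ j.succAbove)
            (fun _ => true)
          rw [← h4]
          simp only [if_true, smul_neg, ← sub_eq_add_neg] at h3 ⊢
          exact h3
      · rcases hj with rfl | hj
        · exact left_mem o (v ∘ m.succAbove) (s ∘ m.succAbove) (t ∘ m.succAbove) k
        · rw [Set.mem_singleton_iff] at hj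
          subst hj
          exact right_mem o (v ∘ m.succAbove) (s ∘ m.succAbove) (t ∘ m.succAbove) k
    · refine convexHull_min ?_ (hull_convex _ _ _ _)
      intro p hp
      obtain ⟨k, hk⟩ := Set.mem_iUnion.mp hp
      rcases hk with rfl | hk
      · exact left_mem o v s t (m.succAbove k)
      · rw [Set.mem_singleton_iff] at hk
        subst hk
        exact right_mem o v s t (m.succAbove k)
  rw [heq]
  exact isCross_of (others hv hrel ham.ne').2 (fun k => hs _) (fun k => ht _)

/-- Two collinear segments. -/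
theorem caseMerge {d : ℕ} (hd : 1 ≤ d) {o : EuclideanSpace ℝ (Fin d)}
    {v : Fin (d + 1) → EuclideanSpace ℝ (Fin d)} {s t : Fin (d + 1) → ℝ} (hs : ∀ i, 0 < s i)
    (ht : ∀ i, 0 < t i) (ho : o ∈ interior (hull o v s t))
    {a : Fin (d + 1) → ℝ} (hrel : ∑ i, a i • v i = 0)
    {m j : Fin (d + 1)} (hjm : j ≠ m) (ham : 0 < a m) (haj : 0 < a j)
    (hz : ∀ i, i ≠ m → i ≠ j → a i = 0) : IsCross (hull o v s t) o := by
  classical
  have hv := span_top ho
  have hrel2 : a m • v m + a j • v j = 0 := by
    rw [← hrel, ← Finset.sum_subset (Finset.subset_univ ({m, j} : Finset (Fin (d + 1))))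
      (fun i _ hi => by
        rw [Finset.mem_insert, Finset.mem_singleton, not_or] at hi
        rw [hz i hi.1 hi.2, zero_smul]), Finset.sum_pair hjm.symm]
  have hvj : v j = -((a m / a j) • v m) := by
    have h1 : a j • v j = -(a m • v m) := eq_neg_of_add_eq_zero_right hrel2
    have h2 : v j = (a j)⁻¹ • (a j • v j) := by
      rw [smul_smul, inv_mul_cancel₀ haj.ne', one_smul]
    rw [h2, h1, smul_neg, smul_smul, inv_mul_eq_div]
  set r := a m / a j with hr
  have hr0 : 0 < r := div_pos ham haj
  set S : Fin (d + 1) → ℝ := fun i => if i = m then max (s m) (t j * r) else s i with hS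
  set T : Fin (d + 1) → ℝ := fun i => if i = m then max (t m) (s j * r) else t i with hT
  have hSpos : ∀ i, 0 < S i := by
    intro i
    by_cases h : i = m
    · simp only [hS, h, if_true]; exact lt_max_of_lt_left (hs m)
    · simp only [hS, h, if_false]; exact hs i
  have hTpos : ∀ i, 0 < T i := by
    intro i
    by_cases h : i = m
    · simp only [hT, h, if_true]; exact lt_max_of_lt_left (ht m)
    · simp only [hT, h, if_false]; exact ht i
  have : Nonempty (Fin d) := ⟨⟨0, hd⟩⟩
  obtain ⟨km, hkm⟩ : ∃ k, j.succAbove k = m := by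
    rcases Fin.eq_self_or_eq_succAbove j m with h | ⟨k, hk⟩
    · exact absurd h.symm hjm
    · exact ⟨k, hk.symm⟩
  set H := hull o (v ∘ j.succAbove) (S ∘ j.succAbove) (T ∘ j.succAbove) with hH
  have hHc : Convex ℝ H := hull_convex _ _ _ _
  have hoH : o ∈ H := o_mem (fun k => hSpos _) (fun k => hTpos _)
  have hL : o + S m • v m ∈ H := by
    have := left_mem o (v ∘ j.succAbove) (S ∘ j.succAbove) (T ∘ j.succAbove) km
    simpa only [Function.comp_apply, hkm] using this
  have hR : o + T m • (-v m) ∈ H := by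
    have := right_mem o (v ∘ j.succAbove) (S ∘ j.succAbove) (T ∘ j.succAbove) km
    rw [smul_neg, ← sub_eq_add_neg]
    simpa only [Function.comp_apply, hkm] using this
  have hSm : S m = max (s m) (t j * r) := by simp [hS]
  have hTm : T m = max (t m) (s j * r) := by simp [hT]
  have heq : hull o v s t = H := by
    apply Set.Subset.antisymm
    · refine convexHull_min ?_ hHc
      intro p hp
      obtain ⟨i, hi⟩ := Set.mem_iUnion.mp hp
      by_cases hij : i = j
      · subst hij
        rcases hi with rfl | hi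
        · have := between hHc hoH (hTpos m) (mul_pos (hs i) hr0).le
            (by rw [hTm]; exact le_max_right _ _) hR
          rw [hvj, smul_neg, smul_smul]
          rwa [smul_neg] at this
        · rw [Set.mem_singleton_iff] at hi
          subst hi
          have := between hHc hoH (hSpos m) (mul_pos (ht i) hr0).le
            (by rw [hSm]; exact le_max_right _ _) hL
          rw [hvj, smul_neg, smul_smul, sub_neg_eq_add]
          exact this
      · by_cases him : i = m
        · subst him
          rcases hi with rfl | hi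
          · exact between hHc hoH (hSpos i) (hs i).le (by rw [hSm]; exact le_max_left _ _) hL
          · rw [Set.mem_singleton_iff] at hi
            subst hi
            have := between hHc hoH (hTpos i) (ht i).le (by rw [hTm]; exact le_max_left _ _) hR
            rwa [smul_neg, ← sub_eq_add_neg] at this
        · obtain ⟨k, rfl⟩ : ∃ k, i = j.succAbove k := by
            rcases Fin.eq_self_or_eq_succAbove j i with h | h
            · exact absurd h hij
            · exact h
          rcases hi with rfl | hi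
          · have := left_mem o (v ∘ j.succAbove) (S ∘ j.succAbove) (T ∘ j.succAbove) k
            simpa only [Function.comp_apply, hS, him, if_false] using this
          · rw [Set.mem_singleton_iff] at hi
            subst hi
            have := right_mem o (v ∘ j.succAbove) (S ∘ j.succAbove) (T ∘ j.succAbove) k
            simpa only [Function.comp_apply, hT, him, if_false] using this
    · refine convexHull_min ?_ (hull_convex _ _ _ _)
      intro p hp
      obtain ⟨k, hk⟩ := Set.mem_iUnion.mp hp
      by_cases him : j.succAbove k = m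
      · rcases hk with rfl | hk
        · show o + S (j.succAbove k) • v (j.succAbove k) ∈ hull o v s t
          rw [him, hSm]
          rcases le_total (t j * r) (s m) with h | h
          · rw [max_eq_left h]; exact left_mem o v s t m
          · rw [max_eq_right h]
            have := right_mem o v s t j
            rwa [hvj, smul_neg, smul_smul, sub_neg_eq_add] at this
        · rw [Set.mem_singleton_iff] at hk
          subst hk
          show o - T (j.succAbove k) • v (j.succAbove k) ∈ hull o v s t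
          rw [him, hTm]
          rcases le_total (s j * r) (t m) with h | h
          · rw [max_eq_left h]; exact right_mem o v s t m
          · rw [max_eq_right h]
            have := left_mem o v s t j
            rwa [hvj, smul_neg, smul_smul, ← sub_eq_add_neg] at this
      · rcases hk with rfl | hk
        · show o + S (j.succAbove k) • v (j.succAbove k) ∈ hull o v s t
          simp only [hS, him, if_false]
          exact left_mem o v s t _
        · rw [Set.mem_singleton_iff] at hk
          subst hk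
          show o - T (j.succAbove k) • v (j.succAbove k) ∈ hull o v s t
          simp only [hT, him, if_false]
          exact right_mem o v s t _
  rw [heq, hH]
  exact isCross_of (others hv hrel haj.ne').2 (fun k => hSpos _) (fun k => hTpos _)

theorem main_nonneg {d : ℕ} (hd : 1 ≤ d) {o : EuclideanSpace ℝ (Fin d)}
    {v : Fin (d + 1) → EuclideanSpace ℝ (Fin d)} {s t : Fin (d + 1) → ℝ} (hs : ∀ i, 0 < s i)
    (ht : ∀ i, 0 < t i) (ho : o ∈ interior (hull o v s t))
    {a : Fin (d + 1) → ℝ} (ha : ∀ i, 0 ≤ a i) (hrel : ∑ i, a i • v i = 0) (hne : ∃ i, a i ≠ 0) :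
    SepBy (hull o v s t) o (2 ^ d - 1) ∨ IsCross (hull o v s t) o := by
  classical
  obtain ⟨m, -, hm⟩ := Finset.exists_max_image (univ : Finset (Fin (d + 1)))
    (fun i => a i * (1 / s i + 1 / t i)) Finset.univ_nonempty
  have hm' : ∀ i, a i * (1 / s i + 1 / t i) ≤ a m * (1 / s m + 1 / t m) :=
    fun i => hm i (mem_univ _)
  have ham : 0 < a m := by
    obtain ⟨i, hi⟩ := hne
    have h1 : 0 < a i := lt_of_le_of_ne (ha i) hi.symm
    have h2 : 0 < a i * (1 / s i + 1 / t i) := by
      have := hs i; have := ht i; positivity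
    have h3 := h2.trans_le (hm' i)
    rcases (ha m).eq_or_lt with h | h
    · rw [← h, zero_mul] at h3; exact absurd h3 (lt_irrefl _)
    · exact h
  by_cases hjk : ∃ j k, 0 < a j ∧ 0 < a k ∧ j ≠ m ∧ k ≠ m ∧ j ≠ k
  · obtain ⟨j, k, haj, hak, hjm, hkm, hjk⟩ := hjk
    by_cases h1 : a m * (1 / t m) < ∑ i ∈ univ.erase m, a i * (1 / s i)
    · exact Or.inl (caseIII hs ht ho ha hrel hm' ham haj hak hjm hkm hjk h1)
    by_cases h2 : a m * (1 / s m) < ∑ i ∈ univ.erase m, a i * (1 / t i)
    · left
      have hfl := hull_flip o v s t (fun _ => true)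
      simp only [if_true] at hfl
      rw [← hfl] at ho ⊢
      refine caseIII ht hs ho ha ?_ (m := m) (j := j) (k := k) ?_ ham haj hak hjm hkm hjk h2
      · simp only [smul_neg, Finset.sum_neg_distrib, hrel, neg_zero]
      · intro i
        have := hm' i
        rw [add_comm (1 / t i), add_comm (1 / t m)]
        exact this
    · exact Or.inr (caseV hd hs ht ho ha hrel ham (not_lt.mp h1) (not_lt.mp h2))
  · right
    push Not at hjk
    by_cases hj : ∃ j, 0 < a j ∧ j ≠ m
    · obtain ⟨j, haj, hjm⟩ := hj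
      refine caseMerge hd hs ht ho hrel hjm ham haj fun i him hij => ?_
      by_contra hi
      exact hij (hjk j i haj (lt_of_le_of_ne (ha i) (Ne.symm hi)) hjm him).symm
    · push Not at hj
      have hz : ∀ i ∈ univ.erase m, a i = 0 := by
        intro i hi
        by_contra h
        exact (ne_of_mem_erase hi) (hj i (lt_of_le_of_ne (ha i) (Ne.symm h)))
      refine caseV hd hs ht ho ha hrel ham ?_ ?_
      · rw [Finset.sum_eq_zero (fun i hi => by rw [hz i hi, zero_mul])]
        have := ht m; positivity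
      · rw [Finset.sum_eq_zero (fun i hi => by rw [hz i hi, zero_mul])]
        have := hs m; positivity

theorem main {d : ℕ} (hd : 1 ≤ d) {o : EuclideanSpace ℝ (Fin d)}
    {v : Fin (d + 1) → EuclideanSpace ℝ (Fin d)} {s t : Fin (d + 1) → ℝ} (hs : ∀ i, 0 < s i)
    (ht : ∀ i, 0 < t i) (ho : o ∈ interior (hull o v s t)) :
    SepBy (hull o v s t) o (2 ^ d - 1) ∨ IsCross (hull o v s t) o := by
  classical
  have hnl : ¬ LinearIndependent ℝ v := by
    intro h
    have := h.fintype_card_le_finrank
    simp at this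
  obtain ⟨g, hg, hne⟩ := Fintype.not_linearIndependent_iff.mp hnl
  have hfl := hull_flip o v s t (fun i => decide (g i < 0))
  rw [← hfl] at ho ⊢
  refine main_nonneg hd (a := fun i => |g i|) ?_ ?_ ho (fun i => abs_nonneg _) ?_ ?_
  · intro i; split_ifs <;> [exact ht i; exact hs i]
  · intro i; split_ifs <;> [exact hs i; exact ht i]
  · rw [← hg]
    refine Finset.sum_congr rfl fun i _ => ?_
    by_cases h : g i < 0
    · simp [h, abs_of_neg h]
    · simp [h, abs_of_nonneg (not_lt.mp h)]
  · obtain ⟨i, hi⟩ := hne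
    exact ⟨i, abs_ne_zero.mpr hi⟩

end Pool.Agent.H210R3.Seg
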