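import Pool.Agent.H210R3.Seg.Mutual
import Pool.Agent.H210R3.Seg.Main

set_option autoImplicit false

open Finset Filter Topology
open scoped InnerProductSpace

namespace Pool.Agent.H210R3.Seg

/-- Separation for the hull of a finite set of points. -/
theorem sepPts {d : ℕ} {κ : Type*} (Q : Set (EuclideanSpace ℝ (Fin d))) (hQ : Q.Finite)
    {o : EuclideanSpace ℝ (Fin d)} (ho : o ∈ interior (convexHull ℝ Q))
    (N : ℕ) (C : Finset κ) (hC : C.card ≤ N) (w : κ → EuclideanSpace ℝ (Fin d))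
    (hcov : ∀ u : EuclideanSpace ℝ (Fin d), (∀ q ∈ Q, ⟪u, q - o⟫_ℝ ≤ 1) →
      ∃ c ∈ C, ∀ q ∈ Q, ⟪u, q - o⟫_ℝ = 1 → 0 < ⟪w c, q - o⟫_ℝ) :
    SepBy (convexHull ℝ Q) o N := by
  classical
  have hδ : ∀ c : κ, ∃ δ : ℝ, 0 < δ ∧ ∀ q ∈ Q, 0 < ⟪w c, q - o⟫_ℝ → 2 * δ ≤ ⟪w c, q - o⟫_ℝ := by
    intro c
    have h1 : ∀ᶠ δ : ℝ in 𝓝[>] 0, ∀ q ∈ Q, 0 < ⟪w c, q - o⟫_ℝ → 2 * δ ≤ ⟪w c, q - o⟫_ℝ := by
      rw [hQ.eventually_all]
      intro q _
      by_cases h : 0 < ⟪w c, q - o⟫_ℝ
      · have h2 : ∀ᶠ δ : ℝ in 𝓝[>] 0, δ < ⟪w c, q - o⟫_ℝ / 2 :=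
          nhdsWithin_le_nhds (eventually_lt_nhds (by linarith))
        filter_upwards [h2] with δ hδ _
        linarith
      · exact Eventually.of_forall fun δ h' => absurd h' h
    have h2 : ∀ᶠ δ : ℝ in 𝓝[>] 0, 0 < δ := self_mem_nhdsWithin
    obtain ⟨δ, h3, h4⟩ := (h1.and h2).exists
    exact ⟨δ, h4, h3⟩
  choose δ hδ0 hδ using hδ
  refine ⟨fun i => if h : i.1 < C.card then w (C.equivFin.symm ⟨i.1, h⟩).1 else 0,
    fun i => if h : i.1 < C.card then ⟪w (C.equivFin.symm ⟨i.1, h⟩).1, o⟫_ℝ +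
      δ (C.equivFin.symm ⟨i.1, h⟩).1 else 0, fun u x₀ hu hx₀ hmax => ?_⟩
  have hh := height_pos ho hu hmax
  set h := ⟪u, x₀⟫_ℝ - ⟪u, o⟫_ℝ with hhdef
  have hle : ∀ q ∈ Q, ⟪u, q - o⟫_ℝ ≤ h := by
    intro q hq
    have := hmax q (subset_convexHull ℝ _ hq)
    rw [inner_sub_right]
    linarith
  obtain ⟨c, hcC, hc⟩ := hcov (h⁻¹ • u) (by
    intro q hq
    rw [real_inner_smul_left, inv_mul_le_iff₀ hh, mul_one]
    exact hle q hq)
  refine ⟨Fin.castLE hC (C.equivFin ⟨c, hcC⟩), ?_⟩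
  have hlt : (Fin.castLE hC (C.equivFin ⟨c, hcC⟩)).1 < C.card := by simp
  simp only [Fin.val_castLE, Fin.is_lt, dif_pos, Fin.eta, Equiv.symm_apply_apply]
  refine ⟨by linarith [hδ0 c], ?_⟩
  intro x hx hxu
  have hM : ∀ᶠ M : ℝ in atTop, ∀ q ∈ Q,
      2 * δ c - M * (h - ⟪u, q - o⟫_ℝ) ≤ ⟪w c, q - o⟫_ℝ := by
    rw [hQ.eventually_all]
    intro q hq
    rcases (hle q hq).eq_or_lt with heq | hlt
    · have h1 := hc q hq (by
        rw [real_inner_smul_left, heq, inv_mul_cancel₀ hh.ne'])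
      have h2 := hδ c q hq h1
      filter_upwards with M
      rw [heq]
      linarith
    · have hpos : 0 < h - ⟪u, q - o⟫_ℝ := by linarith
      filter_upwards [eventually_ge_atTop ((2 * δ c - ⟪w c, q - o⟫_ℝ) / (h - ⟪u, q - o⟫_ℝ))] with M hM
      rw [div_le_iff₀ hpos] at hM
      linarith
  obtain ⟨M, hM⟩ := hM.exists
  have hsub : convexHull ℝ Q ⊆ {x | ⟪w c, o⟫_ℝ + 2 * δ c ≤
      ⟪w c, x⟫_ℝ + M * (⟪u, x₀⟫_ℝ - ⟪u, x⟫_ℝ)} := by
    refine convexHull_min ?_ ?_
    · intro q hq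
      have h1 := hM q hq
      rw [inner_sub_right, inner_sub_right] at h1
      show ⟪w c, o⟫_ℝ + 2 * δ c ≤ ⟪w c, q⟫_ℝ + M * (⟪u, x₀⟫_ℝ - ⟪u, q⟫_ℝ)
      have h2 : h - (⟪u, q⟫_ℝ - ⟪u, o⟫_ℝ) = ⟪u, x₀⟫_ℝ - ⟪u, q⟫_ℝ := by rw [hhdef]; ring
      rw [h2] at h1
      linarith
    · intro x hx y hy a b ha hb hab
      have hx' : ⟪w c, o⟫_ℝ + 2 * δ c ≤ ⟪w c, x⟫_ℝ + M * (⟪u, x₀⟫_ℝ - ⟪u, x⟫_ℝ) := hx
      have hy' : ⟪w c, o⟫_ℝ + 2 * δ c ≤ ⟪w c, y⟫_ℝ + M * (⟪u, x₀⟫_ℝ - ⟪u, y⟫_ℝ) := hy
      show ⟪w c, o⟫_ℝ + 2 * δ c ≤ ⟪w c, a • x + b • y⟫_ℝ + M * (⟪u, x₀⟫_ℝ - ⟪u, a • x + b • y⟫_ℝ)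
      rw [inner_add_right, inner_add_right, real_inner_smul_right, real_inner_smul_right,
        real_inner_smul_right, real_inner_smul_right]
      have e1 : b = 1 - a := by linarith
      have h1 := mul_le_mul_of_nonneg_left hx' ha
      have h2 := mul_le_mul_of_nonneg_left hy' hb
      subst e1
      nlinarith
  have hfin : ⟪w c, o⟫_ℝ + 2 * δ c ≤ ⟪w c, x⟫_ℝ + M * (⟪u, x₀⟫_ℝ - ⟪u, x⟫_ℝ) := hsub hx
  rw [hxu, sub_self, mul_zero, add_zero] at hfin
  linarith [hδ0 c]

/-- The generating points: the ends of the segments and the points `o + x`, where `x ∈ X` in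
coordinates. -/
def pts {d : ℕ} (o : EuclideanSpace ℝ (Fin d)) (v : Fin d → EuclideanSpace ℝ (Fin d))
    (s t : Fin d → ℝ) (X : Finset (Fin d → ℝ)) : Set (EuclideanSpace ℝ (Fin d)) :=
  (⋃ i, ({o + s i • v i, o - t i • v i} : Set (EuclideanSpace ℝ (Fin d)))) ∪
    (fun x : Fin d → ℝ => o + ∑ i, x i • v i) '' (X : Set (Fin d → ℝ))

theorem pts_finite {d : ℕ} (o : EuclideanSpace ℝ (Fin d)) (v : Fin d → EuclideanSpace ℝ (Fin d))
    (s t : Fin d → ℝ) (X : Finset (Fin d → ℝ)) : (pts o v s t X).Finite := by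
  refine Set.Finite.union (Set.finite_iUnion fun i => ?_) (X.finite_toSet.image _)
  exact (Set.finite_singleton _).insert _

theorem hull_sub {d : ℕ} (o : EuclideanSpace ℝ (Fin d)) (v : Fin d → EuclideanSpace ℝ (Fin d))
    (s t : Fin d → ℝ) (X : Finset (Fin d → ℝ)) : hull o v s t ⊆ convexHull ℝ (pts o v s t X) :=
  convexHull_mono Set.subset_union_left

theorem inner_coord {d : ℕ} (v : Fin d → EuclideanSpace ℝ (Fin d))
    (u : EuclideanSpace ℝ (Fin d)) (x : Fin d → ℝ) :
    ⟪u, ∑ i, x i • v i⟫_ℝ = pair x (fun i => ⟪u, v i⟫_ℝ) := by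
  rw [inner_sum]
  unfold pair
  exact Finset.sum_congr rfl fun i _ => real_inner_smul_right _ _ _

/-- A point outside the cross-body is beyond its maximal corner. -/
theorem big_of_not_mem {d : ℕ} (hd : 1 ≤ d) {o : EuclideanSpace ℝ (Fin d)}
    {v : Fin d → EuclideanSpace ℝ (Fin d)} {s t : Fin d → ℝ} (hs : ∀ i, 0 < s i)
    (ht : ∀ i, 0 < t i) {x : Fin d → ℝ} (hx : o + ∑ i, x i • v i ∉ hull o v s t) :
    1 < pair x (gam s t (mx x)) := by
  have : Nonempty (Fin d) := ⟨⟨0, hd⟩⟩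
  by_contra hle
  push Not at hle
  apply hx
  have h := comb_mem (hull_convex o v s t) (o_mem hs ht)
    (fun i => if mx x i = true then s i • v i else -(t i • v i))
    (fun i => by
      split_ifs
      · exact left_mem o v s t i
      · rw [← sub_eq_add_neg]; exact right_mem o v s t i)
    (fun i => x i * gam s t (mx x) i) (fun i => mx_nonneg hs ht x i rfl) hle
  have e : ∀ i, (x i * gam s t (mx x) i) • (if mx x i = true then s i • v i else -(t i • v i)) =
      x i • v i := by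
    intro i
    rw [gam]
    split_ifs
    · rw [smul_smul]
      congr 1
      have := hs i
      field_simp
    · rw [smul_neg, smul_smul, ← neg_smul]
      congr 1
      have := ht i
      field_simp
  simp only [e] at h
  exact h

/-- An end of the segment `i` is redundant if the cap of `y` contains a facet. -/
theorem redundant_end {d : ℕ} {o : EuclideanSpace ℝ (Fin d)}
    {v : Fin d → EuclideanSpace ℝ (Fin d)} {s t : Fin d → ℝ} (hs : ∀ i, 0 < s i)
    (ht : ∀ i, 0 < t i) {H : Set (EuclideanSpace ℝ (Fin d))} (hH : Convex ℝ H) (ho : o ∈ H)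
    {i : Fin d} (hl : ∀ j, j ≠ i → o + s j • v j ∈ H) (hr : ∀ j, j ≠ i → o - t j • v j ∈ H)
    {y : Fin d → ℝ} (hy : o + ∑ j, y j • v j ∈ H) (b : Bool)
    (hcap : ∀ c : Fin d → Bool, c i = b → 1 ≤ pair y (gam s t c)) :
    o + (if b = true then s i else -(t i)) • v i ∈ H := by
  classical
  -- the worst corner of the facet
  set c : Fin d → Bool := fun j => if j = i then b else !mx y j with hc
  have hci : c i = b := by simp [hc]
  have h1 := hcap c hci
  have hcj : ∀ j, j ≠ i → y j * gam s t c j ≤ 0 := by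
    intro j hj
    exact mx_nonpos hs ht y j (by simp [hc, hj])
  have h2 := ki_pos hcj h1
  set e : ℝ := if b = true then s i else -(t i) with he
  have hge : gam s t c i = 1 / e := by
    rw [gam, hci, he]
    split_ifs
    · rfl
    · rw [one_div_neg_eq_neg_one_div]
  have he0 : e ≠ 0 := by
    rw [he]; split_ifs
    · exact (hs i).ne'
    · exact (neg_lt_zero.mpr (ht i)).ne
  have hyi : 0 < y i / e := by
    rw [hge, mul_one_div] at h2
    linarith
  have hyi0 : y i ≠ 0 := by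
    intro h; rw [h, zero_div] at hyi; exact lt_irrefl _ hyi
  have hey : 0 < e / y i := by
    rw [← inv_div]; exact inv_pos.mpr hyi
  -- `e • v i` as a combination
  have hcomb := comb_mem hH ho
    (fun j : Fin d => if j = i then ∑ l, y l • v l
      else if c j = true then s j • v j else -(t j • v j))
    (fun j => by
      by_cases hj : j = i
      · rw [if_pos hj]; exact hy
      · rw [if_neg hj]
        split_ifs
        · exact hl j hj
        · rw [← sub_eq_add_neg]; exact hr j hj)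
    (fun j => if j = i then e / y i else (e / y i) * (-(y j * gam s t c j)))
    (fun j => by
      by_cases hj : j = i
      · rw [if_pos hj]; exact hey.le
      · rw [if_neg hj]; exact mul_nonneg hey.le (by have := hcj j hj; linarith))
    (by
      rw [← Finset.add_sum_erase _ _ (mem_univ i), if_pos rfl]
      have h3 : ∑ j ∈ univ.erase i, (if j = i then e / y i else (e / y i) * (-(y j * gam s t c j))) =
          (e / y i) * (-(∑ j ∈ univ.erase i, y j * gam s t c j)) := by
        rw [← Finset.sum_neg_distrib, Finset.mul_sum]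
        exact Finset.sum_congr rfl fun j hj => by rw [if_neg (ne_of_mem_erase hj)]
      rw [h3]
      have h4 : pair y (gam s t c) = y i * gam s t c i + ∑ j ∈ univ.erase i, y j * gam s t c j := by
        unfold pair
        exact (Finset.add_sum_erase _ _ (mem_univ i)).symm
      have h5 : e / y i + e / y i * -∑ j ∈ univ.erase i, y j * gam s t c j =
          (e / y i) * (1 - ∑ j ∈ univ.erase i, y j * gam s t c j) := by ring
      rw [h5]
      calc (e / y i) * (1 - ∑ j ∈ univ.erase i, y j * gam s t c j) ≤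
          (e / y i) * (y i * gam s t c i) := by
            apply mul_le_mul_of_nonneg_left _ hey.le
            linarith
        _ = 1 := by rw [hge]; field_simp)
  have hfin : ∑ j, (if j = i then e / y i else (e / y i) * (-(y j * gam s t c j))) •
      (if j = i then ∑ l, y l • v l else if c j = true then s j • v j else -(t j • v j)) =
      e • v i := by
    have h3 : ∀ j, (if j = i then e / y i else (e / y i) * (-(y j * gam s t c j))) •
        (if j = i then ∑ l, y l • v l else if c j = true then s j • v j else -(t j • v j)) =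
        (if j = i then (e / y i) • (∑ l, y l • v l) + e • v i else 0) -
          ((e / y i) * y j) • v j := by
      intro j
      by_cases hj : j = i
      · subst hj
        rw [if_pos rfl, if_pos rfl, if_pos rfl, div_mul_cancel₀ _ hyi0, add_sub_cancel_right]
      · rw [if_neg hj, if_neg hj, if_neg hj, zero_sub]
        rw [gam]
        split_ifs with hcj'
        · rw [smul_smul, ← neg_smul]
          congr 1
          have := hs j
          field_simp
        · rw [smul_neg, smul_smul]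
          congr 2
          have := ht j
          field_simp
    simp only [h3, Finset.sum_sub_distrib, Finset.sum_ite_eq', mem_univ, if_true]
    have h4 : ∑ j, ((e / y i) * y j) • v j = (e / y i) • ∑ j, y j • v j := by
      rw [Finset.smul_sum]
      exact Finset.sum_congr rfl fun j _ => by rw [smul_smul]
    rw [h4]
    abel
  rw [hfin] at hcomb
  exact hcomb

end Pool.Agent.H210R3.Seg
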