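import Mathlib

set_option autoImplicit false
set_option linter.unusedSectionVars false

/-!
# Sign vectors for a section of a box by a hyperplane

The box is `∏ [-β i, α i]`, the hyperplane is `∑ a i * y i = 0` with `a i ≥ 0`.
-/

open Finset

namespace Pool.Agent.H210R3.Seg

variable {ι : Type*} [Fintype ι] [DecidableEq ι]

/-- The value of the linear form `a` at the corner `ε` of the box. -/
def fval (a α β : ι → ℝ) (ε : ι → Bool) : ℝ := ∑ i, a i * (if ε i = true then α i else -β i)

/-- The sign vector `ε` agrees with the tight coordinates of `y`. -/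
def Agree (α β y : ι → ℝ) (ε : ι → Bool) : Prop :=
  ∀ i, (y i = α i → ε i = true) ∧ (y i = -β i → ε i = false)

theorem fval_update (a α β : ι → ℝ) (ε : ι → Bool) (i : ι) (h : ε i = false) :
    fval a α β (Function.update ε i true) = fval a α β ε + a i * (α i + β i) := by
  unfold fval
  rw [← Finset.add_sum_erase _ _ (mem_univ i), ← Finset.add_sum_erase (a := i) univ
    (fun k => a k * (if ε k = true then α k else -β k)) (mem_univ i)]
  have h1 : ∑ x ∈ univ.erase i, a x * (if Function.update ε i true x = true then α x else -β x) =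
      ∑ x ∈ univ.erase i, a x * (if ε x = true then α x else -β x) := by
    refine Finset.sum_congr rfl fun x hx => ?_
    rw [Function.update_of_ne (ne_of_mem_erase hx)]
  rw [h1]
  simp only [Function.update_self, h, if_true]
  simp
  ring

theorem fval_neg {a α β : ι → ℝ} (ha : ∀ i, 0 ≤ a i) (hβ : ∀ i, 0 < β i) {m : ι} (hm : 0 < a m)
    {ε : ι → Bool} (h : ∀ i, 0 < a i → ε i = false) : fval a α β ε < 0 := by
  unfold fval
  have h1 : ∀ i, a i * (if ε i = true then α i else -β i) = -(a i * β i) := by
    intro i
    rcases (ha i).eq_or_lt with h0 | h0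
    · rw [← h0]; simp
    · rw [h i h0]; simp
  simp only [h1, Finset.sum_neg_distrib, neg_lt_zero]
  exact Finset.sum_pos' (fun i _ => mul_nonneg (ha i) (hβ i).le)
    ⟨m, mem_univ _, mul_pos hm (hβ m)⟩

theorem fval_pos {a α β : ι → ℝ} (ha : ∀ i, 0 ≤ a i) (hα : ∀ i, 0 < α i) {m : ι} (hm : 0 < a m)
    {ε : ι → Bool} (h : ∀ i, 0 < a i → ε i = true) : 0 < fval a α β ε := by
  unfold fval
  have h1 : ∀ i, a i * (if ε i = true then α i else -β i) = a i * α i := by
    intro i
    rcases (ha i).eq_or_lt with h0 | h0
    · rw [← h0]; simp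
    · rw [h i h0]; simp
  simp only [h1]
  exact Finset.sum_pos' (fun i _ => mul_nonneg (ha i) (hα i).le)
    ⟨m, mem_univ _, mul_pos hm (hα m)⟩

/-- The face of a point `y` of the section contains a corner on the hyperplane or an edge which is
cut by it. -/
theorem walk {a α β y : ι → ℝ} (ha : ∀ i, 0 ≤ a i) (hα : ∀ i, 0 < α i) (hβ : ∀ i, 0 < β i)
    (hy : ∀ i, -β i ≤ y i ∧ y i ≤ α i) (hsum : ∑ i, a i * y i = 0) :
    ∃ ε, Agree α β y ε ∧ (fval a α β ε = 0 ∨ (fval a α β ε < 0 ∧ ∃ i, ε i = false ∧
      0 < fval a α β (Function.update ε i true) ∧ Agree α β y (Function.update ε i true))) := by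
  classical
  let A : Finset (ι → Bool) := univ.filter fun ε => Agree α β y ε ∧ fval a α β ε ≤ 0
  have hA : A.Nonempty := by
    refine ⟨fun i => decide (y i = α i), Finset.mem_filter.mpr ⟨mem_univ _, ?_, ?_⟩⟩
    · intro i
      refine ⟨fun h => by simpa using h, fun h => ?_⟩
      have : y i ≠ α i := by
        have := hα i; have := hβ i
        intro h'; linarith
      simpa using this
    · rw [← hsum]
      unfold fval
      refine Finset.sum_le_sum fun i _ => mul_le_mul_of_nonneg_left ?_ (ha i)
      by_cases h : y i = α i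
      · simp [h]
      · simp only [h, decide_false]
        simpa using (hy i).1
  obtain ⟨ε, hε, hmax⟩ := Finset.exists_max_image A
    (fun ε => (univ.filter fun i => ε i = true).card) hA
  obtain ⟨-, hag, hle⟩ := Finset.mem_filter.mp hε
  refine ⟨ε, hag, ?_⟩
  rcases hle.eq_or_lt with h0 | hlt
  · exact Or.inl h0
  right
  refine ⟨hlt, ?_⟩
  obtain ⟨i, hi, hyi⟩ : ∃ i, ε i = false ∧ y i ≠ -β i := by
    by_contra hno
    push Not at hno
    have : 0 ≤ fval a α β ε := by
      rw [← hsum]
      unfold fval
      refine Finset.sum_le_sum fun i _ => mul_le_mul_of_nonneg_left ?_ (ha i)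
      by_cases h : ε i = true
      · simp only [h, if_true]; exact (hy i).2
      · have h' : ε i = false := by simpa using h
        simp only [h', hno i h']
        simp
    linarith
  have hag' : Agree α β y (Function.update ε i true) := by
    intro k
    by_cases hk : k = i
    · subst hk
      refine ⟨fun _ => Function.update_self .., fun h => absurd h hyi⟩
    · rw [Function.update_of_ne hk]
      exact hag k
  refine ⟨i, hi, ?_, hag'⟩
  by_contra hnp
  push Not at hnp
  have hmem : Function.update ε i true ∈ A := Finset.mem_filter.mpr ⟨mem_univ _, hag', hnp⟩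
  have h1 := hmax _ hmem
  have h2 : (univ.filter fun k => ε k = true).card <
      (univ.filter fun k => Function.update ε i true k = true).card := by
    apply Finset.card_lt_card
    refine ⟨fun k hk => ?_, fun hsub => ?_⟩
    · have hk' := (Finset.mem_filter.mp hk).2
      refine Finset.mem_filter.mpr ⟨mem_univ _, ?_⟩
      by_cases hki : k = i
      · subst hki; simp
      · rw [Function.update_of_ne hki]; exact hk'
    · have : i ∈ univ.filter fun k => ε k = true :=
        hsub (Finset.mem_filter.mpr ⟨mem_univ _, by simp⟩)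
      have := (Finset.mem_filter.mp this).2
      rw [hi] at this
      exact absurd this (by simp)
  omega

/-- The sign vectors used. -/
def InC (a α β : ι → ℝ) (ε : ι → Bool) : Prop :=
  fval a α β ε = 0 ∨
  (fval a α β ε < 0 ∧ (∃ i, 0 < a i ∧ ε i = true) ∧
    ∃ i, ε i = false ∧ 0 < fval a α β (Function.update ε i true)) ∨
  (0 < fval a α β ε ∧ ∃ i, 0 < a i ∧ ε i = true ∧ ∀ j, 0 < a j → ε j = true → j = i)

theorem nodouble {a α β : ι → ℝ} (ha : ∀ i, 0 ≤ a i) (hα : ∀ i, 0 < α i) (hβ : ∀ i, 0 < β i)
    {m : ι} (ham : 0 < a m) (hm : ∀ i, a i * (α i + β i) ≤ a m * (α m + β m))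
    {ε : ι → Bool} (hε : ε m = false) (h1 : InC a α β ε)
    (h2 : InC a α β (Function.update ε m true)) : False := by
  have hup := fval_update a α β ε m hε
  have hg : 0 < a m * (α m + β m) := mul_pos ham (add_pos (hα m) (hβ m))
  have hpos : 0 < fval a α β (Function.update ε m true) := by
    rw [hup]
    rcases h1 with h | ⟨h, -, i, hi, h'⟩ | ⟨h, -⟩
    · rw [h]; linarith
    · rw [fval_update a α β ε i hi] at h'
      linarith [hm i]
    · linarith
  have h3 : ∃ i, 0 < a i ∧ Function.update ε m true i = true ∧
      ∀ j, 0 < a j → Function.update ε m true j = true → j = i := by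
    rcases h2 with h | ⟨h, -⟩ | ⟨-, h⟩
    · linarith
    · linarith
    · exact h
  obtain ⟨i, hi0, hi1, hi2⟩ := h3
  have hmi : m = i := hi2 m ham (Function.update_self ..)
  have hfalse : ∀ j, 0 < a j → ε j = false := by
    intro j hj
    by_contra hne
    have ht : ε j = true := by simpa using hne
    have hjm : j ≠ m := by
      rintro rfl
      rw [hε] at ht
      exact absurd ht (by simp)
    have := hi2 j hj (by rw [Function.update_of_ne hjm]; exact ht)
    exact hjm (this.trans hmi.symm)
  have hneg : fval a α β ε < 0 := fval_neg ha hβ ham hfalse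
  rcases h1 with h | ⟨-, ⟨k, hk, hk'⟩, -⟩ | ⟨h, -⟩
  · linarith
  · rw [hfalse k hk] at hk'
    exact absurd hk' (by simp)
  · linarith

theorem cover {a α β : ι → ℝ} (ha : ∀ i, 0 ≤ a i) (hα : ∀ i, 0 < α i) (hβ : ∀ i, 0 < β i)
    {m j k : ι} (hm : ∀ i, a i * (α i + β i) ≤ a m * (α m + β m))
    (ham : 0 < a m) (haj : 0 < a j) (hak : 0 < a k) (hjm : j ≠ m) (hkm : k ≠ m) (hjk : j ≠ k)
    (hIII : a m * β m < ∑ i ∈ univ.erase m, a i * α i) :
    ∃ C : Finset (ι → Bool), 2 * C.card + 2 ≤ 2 ^ Fintype.card ι ∧
      (∀ ε ∈ C, (∃ i, 0 < a i ∧ ε i = true) ∧ (∃ i, 0 < a i ∧ ε i = false)) ∧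
      ∀ y : ι → ℝ, (∀ i, -β i ≤ y i ∧ y i ≤ α i) → ∑ i, a i * y i = 0 →
        ∃ ε ∈ C, Agree α β y ε := by
  classical
  let C : Finset (ι → Bool) := univ.filter fun ε => InC a α β ε
  have hmemC : ∀ ε, ε ∈ C ↔ InC a α β ε := fun ε => by simp [C]
  refine ⟨C, ?_, ?_, ?_⟩
  · let φ : (ι → Bool) → (ι → Bool) := fun ε => Function.update ε m (!ε m)
    have hφφ : ∀ ε, φ (φ ε) = ε := by
      intro ε
      simp [φ]
    have hφinj : Function.Injective φ := fun x y h => by rw [← hφφ x, ← hφφ y, h]
    have hnd : ∀ ε, InC a α β ε → InC a α β (φ ε) → False := by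
      intro ε h1 h2
      by_cases hε : ε m = false
      · have : φ ε = Function.update ε m true := by simp [φ, hε]
        rw [this] at h2
        exact nodouble ha hα hβ ham hm hε h1 h2
      · have hε' : ε m = true := by simpa using hε
        have h3 : φ ε = Function.update ε m false := by simp [φ, hε']
        have h4 : ε = Function.update (φ ε) m true := by
          rw [h3, Function.update_idem]
          exact (Function.update_eq_self_iff.mpr hε'.symm).symm
        refine nodouble ha hα hβ ham hm (ε := φ ε) (by rw [h3]; simp) h2 ?_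
        rw [← h4]
        exact h1
    have hdisj : Disjoint C (C.image φ) := by
      rw [Finset.disjoint_left]
      intro ε h1 h2
      obtain ⟨δ, hδ, rfl⟩ := Finset.mem_image.mp h2
      exact hnd δ ((hmemC _).mp hδ) ((hmemC _).mp h1)
    set e1 : ι → Bool := fun i => decide (i ≠ m) with he1
    set e2 : ι → Bool := fun _ => true with he2
    have hφ1 : φ e1 = e2 := by
      funext i
      by_cases hi : i = m
      · subst hi; simp [φ, e1, e2]
      · simp [φ, e1, e2, hi]
    have hφ2 : φ e2 = e1 := by rw [← hφ1, hφφ]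
    have h12 : e1 ≠ e2 := by
      intro h
      have := congrFun h m
      simp [e1, e2] at this
    have hf2 : 0 < fval a α β e2 := fval_pos ha hα ham (fun i _ => rfl)
    have hf1 : 0 < fval a α β e1 := by
      unfold fval
      rw [← Finset.add_sum_erase _ _ (mem_univ m)]
      have h1 : ∑ i ∈ univ.erase m, a i * (if e1 i = true then α i else -β i) =
          ∑ i ∈ univ.erase m, a i * α i := by
        refine Finset.sum_congr rfl fun i hi => ?_
        simp [e1, ne_of_mem_erase hi]
      have hem : e1 m = false := by simp [e1]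
      rw [h1, hem]
      simp only [Bool.false_eq_true, if_false]
      linarith
    have hnot : ∀ e : ι → Bool, 0 < fval a α β e → e j = true → e k = true → ¬ InC a α β e := by
      intro e he hj hk h
      rcases h with h | ⟨h, -⟩ | ⟨-, i, -, -, h⟩
      · linarith
      · linarith
      · exact hjk ((h j haj hj).trans (h k hak hk).symm)
    have hn1 : ¬ InC a α β e1 := hnot e1 hf1 (by simp [e1, hjm]) (by simp [e1, hkm])
    have hn2 : ¬ InC a α β e2 := hnot e2 hf2 rfl rfl
    have hsub : C ∪ C.image φ ⊆ univ \ {e1, e2} := by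
      intro ε hε
      rw [Finset.mem_sdiff]
      refine ⟨mem_univ _, fun h => ?_⟩
      rw [Finset.mem_insert, Finset.mem_singleton] at h
      rcases Finset.mem_union.mp hε with h1 | h1
      · rcases h with rfl | rfl
        · exact hn1 ((hmemC _).mp h1)
        · exact hn2 ((hmemC _).mp h1)
      · obtain ⟨δ, hδ, rfl⟩ := Finset.mem_image.mp h1
        have hδ' := (hmemC _).mp hδ
        rcases h with h | h
        · have : δ = e2 := by rw [← hφφ δ, h, hφ1]
          rw [this] at hδ'; exact hn2 hδ'
        · have : δ = e1 := by rw [← hφφ δ, h, hφ2]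
          rw [this] at hδ'; exact hn1 hδ'
    have hcard := Finset.card_le_card hsub
    rw [Finset.card_union_of_disjoint hdisj, Finset.card_image_of_injective _ hφinj,
      Finset.card_sdiff_of_subset (Finset.subset_univ _), Finset.card_pair h12, Finset.card_univ,
      Fintype.card_fun, Fintype.card_bool] at hcard
    have h2 : 2 ≤ 2 ^ Fintype.card ι := by
      have : 0 < Fintype.card ι := Fintype.card_pos_iff.mpr ⟨m⟩
      calc 2 = 2 ^ 1 := by norm_num
        _ ≤ 2 ^ Fintype.card ι := Nat.pow_le_pow_right (by norm_num) this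
    omega
  · intro ε hε
    have h := (hmemC _).mp hε
    rcases h with h | ⟨h, htrue, i, hi, hpos⟩ | ⟨h, i, hi, hit, huniq⟩
    · constructor
      · by_contra hno
        push Not at hno
        have := fval_neg (α := α) ha hβ ham (ε := ε) (fun i hi => by simpa using hno i hi)
        linarith
      · by_contra hno
        push Not at hno
        have := fval_pos (β := β) ha hα ham (ε := ε) (fun i hi => by simpa using hno i hi)
        linarith
    · refine ⟨htrue, i, ?_, hi⟩
      rw [fval_update a α β ε i hi] at hpos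
      rcases (ha i).eq_or_lt with h0 | h0
      · rw [← h0] at hpos; linarith
      · exact h0
    · refine ⟨⟨i, hi, hit⟩, ?_⟩
      by_cases him : i = m
      · refine ⟨j, haj, ?_⟩
        by_contra hne
        exact hjm ((huniq j haj (by simpa using hne)).trans him)
      · refine ⟨m, ham, ?_⟩
        by_contra hne
        exact him (huniq m ham (by simpa using hne)).symm
  · intro y hy hsum
    obtain ⟨ε, hag, h | ⟨hneg, i, hi, hpos, hag'⟩⟩ := walk ha hα hβ hy hsum
    · exact ⟨ε, (hmemC _).mpr (Or.inl h), hag⟩
    · by_cases ht : ∃ i, 0 < a i ∧ ε i = true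
      · exact ⟨ε, (hmemC _).mpr (Or.inr (Or.inl ⟨hneg, ht, i, hi, hpos⟩)), hag⟩
      · push Not at ht
        refine ⟨_, (hmemC _).mpr (Or.inr (Or.inr ⟨hpos, i, ?_, Function.update_self .., ?_⟩)), hag'⟩
        · rw [fval_update a α β ε i hi] at hpos
          rcases (ha i).eq_or_lt with h0 | h0
          · rw [← h0] at hpos; linarith
          · exact h0
        · intro l hl hlt
          by_contra hli
          rw [Function.update_of_ne hli] at hlt
          exact ht l hl hlt

end Pool.Agent.H210R3.Seg
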