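import Pool.Agent.H210R3.Seg.Caps

set_option autoImplicit false
set_option linter.unusedSectionVars false

open Finset

namespace Pool.Agent.H210R3.Seg

variable {ι : Type*} [Fintype ι] [DecidableEq ι]

theorem gam_congr {s t : ι → ℝ} {c c' : ι → Bool} {i : ι} (h : c i = c' i) :
    gam s t c i = gam s t c' i := by
  rw [gam, gam, h]

/-- A product with `gam` is nonpositive at one end, so it is nonnegative at the other end. -/
theorem other_end {s t : ι → ℝ} (hs : ∀ i, 0 < s i) (ht : ∀ i, 0 < t i) {c c' : ι → Bool} {i : ι}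
    (h : c' i ≠ c i) {x : ℝ} (hx : x * gam s t c i ≤ 0) : 0 ≤ x * gam s t c' i := by
  rcases hc : c i
  · have h1 : c' i = true := by
      rcases h2 : c' i
      · exact absurd (h2.trans hc.symm) h
      · rfl
    have g1 := gam_neg (s := s) ht hc
    have g2 := gam_pos (t := t) hs h1
    have : 0 ≤ x := by
      by_contra hneg
      push Not at hneg
      have := mul_pos_of_neg_of_neg hneg g1
      linarith
    exact mul_nonneg this g2.le
  · have h1 : c' i = false := by
      rcases h2 : c' i
      · rfl
      · exact absurd (h2.trans hc.symm) h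
    have g1 := gam_pos (t := t) hs hc
    have g2 := gam_neg (s := s) ht h1
    have : x ≤ 0 := by
      by_contra hpos
      push Not at hpos
      have := mul_pos hpos g1
      linarith
    exact mul_nonneg_of_nonpos_of_nonpos this g2.le

theorem facet {s t : ι → ℝ} (hs : ∀ i, 0 < s i) (ht : ∀ i, 0 < t i) {c c' : ι → Bool} {i : ι}
    {k : ι → ℝ} (hk : ∀ j, j ≠ i → k j * gam s t c j ≤ 0) (h : c' i = c i) :
    pair k (gam s t c) ≤ pair k (gam s t c') := by
  refine Finset.sum_le_sum fun j _ => ?_
  by_cases hj : j = i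
  · subst hj
    rw [gam_congr h]
  · by_cases hc : c' j = c j
    · rw [gam_congr hc]
    · exact (hk j hj).trans (other_end hs ht hc (hk j hj))

theorem ki_pos {s t : ι → ℝ} {c : ι → Bool} {i : ι} {k : ι → ℝ}
    (hk : ∀ j, j ≠ i → k j * gam s t c j ≤ 0) (h1 : 1 ≤ pair k (gam s t c)) :
    1 ≤ k i * gam s t c i := by
  have h2 : pair k (gam s t c) = k i * gam s t c i + ∑ l ∈ univ.erase i, k l * gam s t c l := by
    unfold pair
    exact (Finset.add_sum_erase _ _ (mem_univ i)).symm
  have h3 : ∑ l ∈ univ.erase i, k l * gam s t c l ≤ 0 :=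
    Finset.sum_nonpos fun l hl => hk l (ne_of_mem_erase hl)
  linarith

theorem mx_of_pos {x : ι → ℝ} {i : ι} (h : 0 < x i) : mx x i = true := by
  rw [mx]; simpa using h.le

theorem mx_of_neg {x : ι → ℝ} {i : ι} (h : x i < 0) : mx x i = false := by
  rw [mx]; simpa using h

/-- The sign of `k j` is opposite to the sign of `a j`. -/
theorem opposite {s t : ι → ℝ} (hs : ∀ i, 0 < s i) (ht : ∀ i, 0 < t i) {a k : ι → ℝ} {i : ι}
    (hk : ∀ j, j ≠ i → k j * gam s t (flip (mx a) i) j ≤ 0)
    (h1 : 1 ≤ pair k (gam s t (flip (mx a) i))) {j : ι} (hj : k j ≠ 0) :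
    mx k j = !mx a j := by
  have hki := ki_pos hk h1
  by_cases hji : j = i
  · subst hji
    rcases lt_or_gt_of_ne hj with h | h
    · rw [mx_of_neg h]
      rcases hm : mx a j
      · exfalso
        have h2 : flip (mx a) j j = true := by rw [flip_self, hm]; rfl
        have := mul_neg_of_neg_of_pos h (gam_pos (t := t) hs h2)
        linarith
      · rfl
    · rw [mx_of_pos h]
      rcases hm : mx a j
      · rfl
      · exfalso
        have h2 : flip (mx a) j j = false := by rw [flip_self, hm]; rfl
        have := mul_neg_of_pos_of_neg h (gam_neg (s := s) ht h2)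
        linarith
  · have hkj := hk j hji
    rcases lt_or_gt_of_ne hj with h | h
    · rw [mx_of_neg h]
      rcases hm : mx a j
      · exfalso
        have h2 : flip (mx a) i j = false := by rw [flip_ne hji, hm]
        have := mul_pos_of_neg_of_neg h (gam_neg (s := s) ht h2)
        linarith
      · rfl
    · rw [mx_of_pos h]
      rcases hm : mx a j
      · rfl
      · exfalso
        have h2 : flip (mx a) i j = true := by rw [flip_ne hji, hm]
        have := mul_pos h (gam_pos (t := t) hs h2)
        linarith

theorem coord_ne {s t : ι → ℝ} {x : ι → ℝ} {i : ι}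
    (h1 : 1 < pair x (gam s t (mx x))) (h2 : pair x (gam s t (flip (mx x) i)) < 1) : x i ≠ 0 := by
  intro h
  have : pair x (gam s t (mx x)) = pair x (gam s t (flip (mx x) i)) := by
    refine Finset.sum_congr rfl fun j _ => ?_
    by_cases hj : j = i
    · subst hj; rw [h, zero_mul, zero_mul]
    · rw [gam_congr (flip_ne hj)]
  linarith

theorem both_conflict {s t : ι → ℝ} (hs : ∀ i, 0 < s i) (ht : ∀ i, 0 < t i)
    {X : Finset (ι → ℝ)}
    (hdisj : ∀ x ∈ X, ∀ y ∈ X, x ≠ y → ∀ u, InBox s t u → ¬ (1 ≤ pair x u ∧ 1 ≤ pair y u))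
    (hsupp : ∀ x ∈ X, ∀ i, ∃ j, j ≠ i ∧ x j ≠ 0)
    (hbig : ∀ x ∈ X, 1 < pair x (gam s t (mx x)))
    (hne : X.Nonempty) (hnf : ∀ a ∈ X, ¬ Free s t X a) :
    ∃ a ∈ X, ∃ k ∈ X, ∃ i, ∃ κ : ℝ, 0 < κ ∧ (∀ j, k j = -κ * a j) ∧ a i ≠ 0 ∧
      (∀ y ∈ X, y = a ∨ y = k) ∧
      (∀ c : ι → Bool, c i = mx a i → 1 ≤ pair a (gam s t c)) ∧
      (∀ c : ι → Bool, c i = !mx a i → 1 ≤ pair k (gam s t c)) := by
  classical
  obtain ⟨a, haX⟩ := hne
  obtain ⟨i, k, hkX, ha1, hk1, hkj, hI1⟩ := conflict hs ht hdisj (hsupp a haX) (hnf a haX)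
  obtain ⟨i', l, hlX, hk2, hl1, hlj, hI2⟩ := conflict hs ht hdisj (hsupp k hkX) (hnf k hkX)
  have hak : a ≠ k := by
    rintro rfl
    linarith
  have hki' : k i' ≠ 0 := coord_ne (hbig k hkX) hk2
  have hai : a i ≠ 0 := coord_ne (hbig a haX) ha1
  have hki : k i ≠ 0 := by
    intro h
    have := ki_pos hkj hk1
    rw [h, zero_mul] at this
    linarith
  have hopp : ∀ j, k j ≠ 0 → mx k j = !mx a j := fun j hj => opposite hs ht hkj hk1 hj
  -- `l = a`
  have hla : l = a := by
    by_contra hla
    refine hdisj l hlX a haX hla _ (gam_box hs ht (mx a)) ⟨?_, (hbig a haX).le⟩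
    refine hl1.trans (facet hs ht hlj ?_)
    rw [flip_self, hopp i' hki', Bool.not_not]
  subst hla
  -- `i = i'`
  have hii : i' = i := by
    by_contra hii
    refine hdisj l hlX k hkX hak _ (gam_box hs ht (flip (mx l) i)) ⟨?_, hk1⟩
    refine hl1.trans (facet hs ht hlj ?_)
    rw [flip_ne hii, flip_self, hopp i' hki', Bool.not_not]
  subst hii
  have hc2 : flip (mx k) i' i' = mx l i' := by rw [flip_self, hopp i' hki', Bool.not_not]
  -- proportionality
  have hki1 : 0 < k i' * gam s t (flip (mx l) i') i' := by
    have := ki_pos hkj hk1; linarith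
  have hg1 : gam s t (flip (mx l) i') i' ≠ 0 := gam_ne hs ht _ _
  have hai1 : l i' * gam s t (flip (mx l) i') i' < 0 :=
    lt_of_le_of_ne (mx_nonpos hs ht l i' (by rw [flip_self])) (mul_ne_zero hai hg1)
  have hsame : ∀ j, l j * k i' = k j * l i' := by
    intro j
    by_cases hj : j = i'
    · subst hj; ring
    have h1 := hI1 j hj
    have h2 := hI2 j hj
    by_cases hkj0 : k j = 0
    · rw [hkj0, zero_mul, zero_mul] at h1
      have h3 : 0 ≤ l j * gam s t (flip (mx l) i') j :=
        mx_nonneg hs ht l j (by rw [flip_ne hj])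
      have h4 : l j * gam s t (flip (mx l) i') j = 0 := by
        by_contra hne
        have := mul_pos (lt_of_le_of_ne h3 (Ne.symm hne)) hki1
        linarith
      have h5 : l j = 0 := (mul_eq_zero.mp h4).resolve_right (gam_ne hs ht _ _)
      rw [h5, hkj0]; ring
    · -- the two products have the same sign
      have hcj : flip (mx k) i' j = !flip (mx l) i' j := by
        rw [flip_ne hj, flip_ne hj, hopp j hkj0]
      have hci : flip (mx k) i' i' = !flip (mx l) i' i' := by
        rw [hc2, flip_self, Bool.not_not]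
      have hsgn : ∀ j, flip (mx k) i' j = !flip (mx l) i' j →
          gam s t (flip (mx k) i') j * gam s t (flip (mx l) i') j < 0 := by
        intro j hj
        rcases hb : flip (mx l) i' j
        · rw [hb] at hj
          exact mul_neg_of_pos_of_neg (gam_pos hs (by simpa using hj)) (gam_neg ht hb)
        · rw [hb] at hj
          exact mul_neg_of_neg_of_pos (gam_neg ht (by simpa using hj)) (gam_pos hs hb)
      have s1 := hsgn j hcj
      have s2 := hsgn i' hci
      set p := gam s t (flip (mx l) i') j
      set q := gam s t (flip (mx l) i') i'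
      set p' := gam s t (flip (mx k) i') j
      set q' := gam s t (flip (mx k) i') i'
      have h3 : (l j * k i' - k j * l i') * (p * q) ≤ 0 := by nlinarith
      have h4 : 0 ≤ (l j * k i' - k j * l i') * (p' * q') := by nlinarith
      have h5 : 0 < (p * q) * (p' * q') := by
        have := mul_pos_of_neg_of_neg s1 s2
        nlinarith
      rcases lt_trichotomy (l j * k i' - k j * l i') 0 with h | h | h
      · exfalso
        have h6 : 0 ≤ p * q := by
          by_contra hn
          push Not at hn
          have := mul_pos_of_neg_of_neg h hn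
          linarith
        have h7 : p' * q' ≤ 0 := by
          by_contra hn
          push Not at hn
          have := mul_neg_of_neg_of_pos h hn
          linarith
        nlinarith
      · linarith
      · exfalso
        have h6 : p * q ≤ 0 := by
          by_contra hn
          push Not at hn
          have := mul_pos h hn
          linarith
        have h7 : 0 ≤ p' * q' := by
          by_contra hn
          push Not at hn
          have := mul_neg_of_pos_of_neg h hn
          linarith
        nlinarith
  have hfa : ∀ c : ι → Bool, c i' = mx l i' → 1 ≤ pair l (gam s t c) :=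
    fun c hc => hl1.trans (facet hs ht hlj (hc.trans hc2.symm))
  have hfk : ∀ c : ι → Bool, c i' = !mx l i' → 1 ≤ pair k (gam s t c) :=
    fun c hc => hk1.trans (facet hs ht hkj (by rw [hc, flip_self]))
  refine ⟨l, hlX, k, hkX, i', -(k i' / l i'), ?_, ?_, hai, ?_, hfa, hfk⟩
  · rw [neg_pos]
    have h1 : k i' * l i' < 0 := by
      have h2 := mul_neg_of_pos_of_neg hki1 hai1
      have h3 : k i' * gam s t (flip (mx l) i') i' * (l i' * gam s t (flip (mx l) i') i') =
          (k i' * l i') * (gam s t (flip (mx l) i') i') ^ 2 := by ring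
      rw [h3] at h2
      by_contra hn
      push Not at hn
      have := mul_nonneg hn (sq_nonneg (gam s t (flip (mx l) i') i'))
      linarith
    rcases lt_or_gt_of_ne hai with h | h
    · have : 0 < k i' := by
        by_contra hn
        push Not at hn
        have := mul_nonneg_of_nonpos_of_nonpos hn h.le
        linarith
      exact div_neg_of_pos_of_neg this h
    · have : k i' < 0 := by
        by_contra hn
        push Not at hn
        have := mul_nonneg hn h.le
        linarith
      exact div_neg_of_neg_of_pos this h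
  · intro j
    have := hsame j
    rw [neg_neg, div_mul_eq_mul_div, eq_div_iff hai]
    linarith
  · intro y hy
    by_cases hc : mx y i' = mx l i'
    · left
      by_contra hyl
      exact hdisj y hy l hlX hyl _ (gam_box hs ht (mx y)) ⟨(hbig y hy).le, hfa _ hc⟩
    · right
      by_contra hyk
      refine hdisj y hy k hkX hyk _ (gam_box hs ht (mx y)) ⟨(hbig y hy).le, hfk _ ?_⟩
      rcases h1 : mx y i' <;> rcases h2 : mx l i' <;> simp_all

end Pool.Agent.H210R3.Seg
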